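import Mathlib

/-!
Rectangular boxes (three-dimensional) in `ℝ⁴`, in centred form.
-/

set_option autoImplicit false

open Topology Filter Set Metric Submodule
open scoped RealInnerProductSpace

namespace Pool.Agent.Lib.MP_d9a4ca_co

/-- four-dimensional Euclidean space -/
abbrev E4 : Type := EuclideanSpace ℝ (Fin 4)

/-- a centred box: centre `c`, half edge vectors `v k` -/
structure CBox where
  c : E4
  v : Fin 3 → E4
  ne : ∀ k, v k ≠ 0
  orth : ∀ k l, k ≠ l → ⟪v k, v l⟫ = 0

/-- a vector of a subspace outside finitely many subspaces not containing it -/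
theorem exists_avoid {ι : Type*} [Finite ι] (P : Submodule ℝ E4) (N : ι → Submodule ℝ E4)
    (h : ∀ i, ¬ P ≤ N i) : ∃ v ∈ P, ∀ i, v ∉ N i := by
  by_contra hcon
  push Not at hcon
  have hcov : ⋃ i, (((N i).comap P.subtype : Submodule ℝ P) : Set P) = Set.univ := by
    rw [Set.eq_univ_iff_forall]
    intro z
    obtain ⟨i, hi⟩ := hcon z z.2
    exact Set.mem_iUnion.2 ⟨i, hi⟩
  obtain ⟨i, hi⟩ := Subspace.exists_eq_top_of_iUnion_eq_univ hcov
  apply h i
  intro z hz
  have : (⟨z, hz⟩ : P) ∈ (N i).comap P.subtype := by rw [hi]; trivial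
  exact this

namespace CBox

variable (B : CBox)

/-- the coordinate functional along the `k`-th edge -/
noncomputable def co (k : Fin 3) : E4 →L[ℝ] ℝ := (‖B.v k‖ ^ 2)⁻¹ • innerSL ℝ (B.v k)

theorem co_apply (k : Fin 3) (z : E4) : B.co k z = (‖B.v k‖ ^ 2)⁻¹ * ⟪B.v k, z⟫ := rfl

theorem norm_sq_pos (k : Fin 3) : 0 < ‖B.v k‖ ^ 2 := by
  have := norm_pos_iff.2 (B.ne k)
  positivity

theorem co_eq_zero_iff {k : Fin 3} {z : E4} : B.co k z = 0 ↔ ⟪B.v k, z⟫ = 0 := by
  rw [co_apply]
  have := B.norm_sq_pos k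
  constructor
  · intro h
    rcases mul_eq_zero.1 h with h | h
    · exact absurd h (by positivity)
    · exact h
  · intro h; rw [h, mul_zero]

theorem co_self (k : Fin 3) : B.co k (B.v k) = 1 := by
  rw [co_apply, real_inner_self_eq_norm_sq]
  exact inv_mul_cancel₀ (B.norm_sq_pos k).ne'

theorem co_ne {k l : Fin 3} (h : k ≠ l) : B.co k (B.v l) = 0 := by
  rw [co_apply, B.orth k l h, mul_zero]

theorem co_v (k l : Fin 3) : B.co k (B.v l) = if k = l then 1 else 0 := by
  by_cases h : k = l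
  · subst h; simp [co_self]
  · simp [h, B.co_ne h]

theorem co_sum (k : Fin 3) (a : Fin 3 → ℝ) : B.co k (∑ l, a l • B.v l) = a k := by
  rw [map_sum]
  simp [co_v]

/-- the direction space of the box -/
def V : Submodule ℝ E4 := span ℝ (range B.v)

theorem v_mem (k : Fin 3) : B.v k ∈ B.V := subset_span ⟨k, rfl⟩

theorem sum_mem (a : Fin 3 → ℝ) : ∑ l, a l • B.v l ∈ B.V :=
  Submodule.sum_mem _ fun l _ => B.V.smul_mem _ (B.v_mem l)

theorem mem_V_iff {z : E4} : z ∈ B.V ↔ ∑ l, B.co l z • B.v l = z := by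
  constructor
  · intro h
    rw [V, Submodule.mem_span_range_iff_exists_fun] at h
    obtain ⟨a, rfl⟩ := h
    exact Finset.sum_congr rfl fun l _ => by rw [co_sum]
  · intro h
    rw [← h]
    exact B.sum_mem _

/-- the direction space of the faces orthogonal to the edge `k` -/
def F (k : Fin 3) : Submodule ℝ E4 := span ℝ (B.v '' {k}ᶜ)

theorem v_mem_F {k l : Fin 3} (h : l ≠ k) : B.v l ∈ B.F k := subset_span ⟨l, h, rfl⟩

theorem F_le_V (k : Fin 3) : B.F k ≤ B.V := span_mono (image_subset_range _ _)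

theorem mem_F_iff {k : Fin 3} {z : E4} : z ∈ B.F k ↔ z ∈ B.V ∧ B.co k z = 0 := by
  constructor
  · intro h
    refine ⟨B.F_le_V k h, ?_⟩
    have hle : B.F k ≤ LinearMap.ker (B.co k : E4 →ₗ[ℝ] ℝ) := by
      rw [F, span_le]
      rintro _ ⟨l, hl, rfl⟩
      exact B.co_ne (Ne.symm hl)
    exact hle h
  · rintro ⟨h1, h2⟩
    rw [mem_V_iff] at h1
    rw [← h1]
    refine Submodule.sum_mem _ fun l _ => ?_
    by_cases hl : l = k
    · subst hl
      rw [h2, zero_smul]
      exact zero_mem _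
    · exact (B.F k).smul_mem _ (B.v_mem_F hl)

theorem co_of_mem_F {k : Fin 3} {z : E4} (h : z ∈ B.F k) : B.co k z = 0 := (B.mem_F_iff.1 h).2

theorem F_inj {k l : Fin 3} (h : B.F k = B.F l) : k = l := by
  by_contra hkl
  have h1 : B.v k ∈ B.F l := B.v_mem_F hkl
  rw [← h] at h1
  have := B.co_of_mem_F h1
  rw [B.co_self] at this
  exact one_ne_zero this

theorem linearIndependent_v : LinearIndependent ℝ B.v := by
  rw [Fintype.linearIndependent_iff]
  intro g hg m
  have := B.co_sum m g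
  rw [hg, map_zero] at this
  exact this.symm

theorem finrank_F (k : Fin 3) : Module.finrank ℝ (B.F k) = 2 := by
  have h1 : LinearIndependent ℝ (fun x : ({k}ᶜ : Set (Fin 3)) => B.v x) :=
    B.linearIndependent_v.comp _ Subtype.val_injective
  have h2 := finrank_span_eq_card h1
  have h3 : range (fun x : ({k}ᶜ : Set (Fin 3)) => B.v x) = B.v '' {k}ᶜ := by
    rw [image_eq_range]
  rw [h3] at h2
  rw [F, h2]
  fin_cases k <;> rfl

/-- the coordinates of a point -/
noncomputable def tc (k : Fin 3) (x : E4) : ℝ := B.co k (x - B.c)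

theorem tc_add (k : Fin 3) (x z : E4) : B.tc k (x + z) = B.tc k x + B.co k z := by
  rw [tc, tc, ← map_add]; congr 1; abel

theorem tc_sub_tc (k : Fin 3) (x y : E4) : B.tc k y = B.tc k x + B.co k (y - x) := by
  rw [← tc_add]; congr 1; abel

theorem continuous_tc (k : Fin 3) : Continuous (B.tc k) :=
  (B.co k).continuous.comp (continuous_id.sub continuous_const)

/-- the point with given coordinates -/
def pt (a : Fin 3 → ℝ) : E4 := B.c + ∑ k, a k • B.v k

theorem tc_pt (k : Fin 3) (a : Fin 3 → ℝ) : B.tc k (B.pt a) = a k := by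
  rw [tc, pt, add_sub_cancel_left, co_sum]

theorem continuous_pt : Continuous B.pt := by
  unfold pt
  fun_prop

/-- the box -/
def carrier : Set E4 := {x | x - B.c ∈ B.V ∧ ∀ k, |B.tc k x| ≤ 1}

/-- the relative interior -/
def relint : Set E4 := {x | x - B.c ∈ B.V ∧ ∀ k, |B.tc k x| < 1}

theorem pt_tc {x : E4} (h : x - B.c ∈ B.V) : B.pt (fun k => B.tc k x) = x := by
  rw [mem_V_iff] at h
  rw [pt]
  simp only [tc]
  rw [h]; abel

theorem pt_sub_mem (a : Fin 3 → ℝ) : B.pt a - B.c ∈ B.V := by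
  rw [pt, add_sub_cancel_left]; exact B.sum_mem a

theorem mem_carrier_iff {x : E4} : x ∈ B.carrier ↔ ∃ a, (∀ k, |a k| ≤ 1) ∧ B.pt a = x := by
  constructor
  · rintro ⟨h1, h2⟩
    exact ⟨_, h2, B.pt_tc h1⟩
  · rintro ⟨a, ha, rfl⟩
    exact ⟨B.pt_sub_mem a, fun k => by rw [tc_pt]; exact ha k⟩

theorem mem_relint_iff {x : E4} : x ∈ B.relint ↔ ∃ a, (∀ k, |a k| < 1) ∧ B.pt a = x := by
  constructor
  · rintro ⟨h1, h2⟩
    exact ⟨_, h2, B.pt_tc h1⟩
  · rintro ⟨a, ha, rfl⟩
    exact ⟨B.pt_sub_mem a, fun k => by rw [tc_pt]; exact ha k⟩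

theorem relint_subset : B.relint ⊆ B.carrier := fun _ h => ⟨h.1, fun k => (h.2 k).le⟩

theorem sub_mem_V {x y : E4} (hx : x ∈ B.carrier) (hy : y ∈ B.carrier) : y - x ∈ B.V := by
  have : y - x = (y - B.c) - (x - B.c) := by abel
  rw [this]
  exact B.V.sub_mem hy.1 hx.1

theorem add_sub_c_mem {x z : E4} (hx : x ∈ B.carrier) (hz : z ∈ B.V) : x + z - B.c ∈ B.V := by
  have : x + z - B.c = (x - B.c) + z := by abel
  rw [this]
  exact B.V.add_mem hx.1 hz

theorem mem_V_of_add {x z : E4} (hx : x ∈ B.carrier) (hz : x + z ∈ B.carrier) : z ∈ B.V := by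
  have := B.sub_mem_V hx hz
  rwa [add_sub_cancel_left] at this

theorem carrier_eq_image : B.carrier = B.pt '' (Set.pi univ fun _ => Icc (-1) 1) := by
  ext x
  rw [mem_carrier_iff]
  constructor
  · rintro ⟨a, ha, rfl⟩
    exact ⟨a, fun k _ => abs_le.1 (ha k), rfl⟩
  · rintro ⟨a, ha, rfl⟩
    exact ⟨a, fun k => abs_le.2 (ha k trivial), rfl⟩

theorem isCompact_carrier : IsCompact B.carrier := by
  rw [carrier_eq_image]
  exact (isCompact_univ_pi fun _ => isCompact_Icc).image B.continuous_pt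

theorem isClosed_carrier : IsClosed B.carrier := B.isCompact_carrier.isClosed

theorem convex_carrier : Convex ℝ B.carrier := by
  intro x hx y hy a b ha hb hab
  refine ⟨?_, fun k => ?_⟩
  · have : a • x + b • y - B.c = a • (x - B.c) + b • (y - B.c) := by
      have h : B.c = (a + b) • B.c := by rw [hab, one_smul]
      conv_lhs => rw [h]
      rw [add_smul, smul_sub, smul_sub]; abel
    rw [this]
    exact B.V.add_mem (B.V.smul_mem _ hx.1) (B.V.smul_mem _ hy.1)
  · have : B.tc k (a • x + b • y) = a * B.tc k x + b * B.tc k y := by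
      rw [tc, tc, tc]
      have : a • x + b • y - B.c = a • (x - B.c) + b • (y - B.c) := by
        have h : B.c = (a + b) • B.c := by rw [hab, one_smul]
        conv_lhs => rw [h]
        rw [add_smul, smul_sub, smul_sub]; abel
      rw [this, map_add, map_smul, map_smul, smul_eq_mul, smul_eq_mul]
    rw [this]
    have h1 := abs_le.1 (hx.2 k)
    have h2 := abs_le.1 (hy.2 k)
    rw [abs_le]
    constructor <;> nlinarith

theorem c_mem_relint : B.c ∈ B.relint := by
  refine ⟨by simp, fun k => ?_⟩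
  simp [tc]

/-- moving from a point towards an interior point -/
theorem mem_relint_of_combo {x y : E4} (hx : x ∈ B.carrier) (hy : y ∈ B.relint) {t : ℝ}
    (ht : 0 < t) (ht1 : t ≤ 1) : x + t • (y - x) ∈ B.relint := by
  refine ⟨?_, fun k => ?_⟩
  · exact B.add_sub_c_mem hx (B.V.smul_mem _ (B.sub_mem_V hx (B.relint_subset hy)))
  · rw [tc_add, map_smul, smul_eq_mul]
    have h1 := abs_le.1 (hx.2 k)
    have h2 := abs_lt.1 (hy.2 k)
    have h3 := B.tc_sub_tc k x y
    rw [abs_lt]
    constructor <;> nlinarith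

/-- the relative interior is dense in the box -/
theorem exists_relint_near {x : E4} (hx : x ∈ B.carrier) {ε : ℝ} (hε : 0 < ε) :
    ∃ y ∈ B.relint, dist y x < ε := by
  set d := ‖B.c - x‖ with hd
  have hd0 : 0 ≤ d := norm_nonneg _
  set t : ℝ := min 1 (ε / (2 * (d + 1))) with ht
  have ht0 : 0 < t := lt_min one_pos (by positivity)
  have ht1 : t ≤ 1 := min_le_left _ _
  refine ⟨x + t • (B.c - x), B.mem_relint_of_combo hx B.c_mem_relint ht0 ht1, ?_⟩
  rw [dist_eq_norm, add_sub_cancel_left, norm_smul, Real.norm_of_nonneg ht0.le, ← hd]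
  have h1 : t ≤ ε / (2 * (d + 1)) := min_le_right _ _
  calc t * d ≤ ε / (2 * (d + 1)) * d := by gcongr
    _ < ε := by
      rw [div_mul_eq_mul_div, div_lt_iff₀ (by positivity)]
      nlinarith

/-- the local structure of the box at a point: the tangent cone -/
def cone (x : E4) : Set E4 := {z | z ∈ B.V ∧ ∀ k, |B.tc k x| = 1 → B.tc k x * B.co k z ≤ 0}

theorem cone_smul {x z : E4} (hz : z ∈ B.cone x) {t : ℝ} (ht : 0 ≤ t) : t • z ∈ B.cone x := by
  refine ⟨B.V.smul_mem _ hz.1, fun k hk => ?_⟩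
  rw [map_smul, smul_eq_mul]
  have := hz.2 k hk
  nlinarith

theorem mem_cone {x z : E4} (hx : x ∈ B.carrier) (hz : x + z ∈ B.carrier) : z ∈ B.cone x := by
  refine ⟨B.mem_V_of_add hx hz, fun k hk => ?_⟩
  have h1 := abs_le.1 (hz.2 k)
  rw [tc_add] at h1
  rcases eq_or_eq_neg_of_abs_eq hk with h | h
  · rw [h] at h1 ⊢; linarith [h1.2]
  · rw [h] at h1 ⊢; linarith [h1.1]

/-- a radius below which the box looks like its tangent cone -/
theorem exists_rad (x : E4) : ∃ δ > 0, (∀ k z, ‖z‖ < δ → |B.co k z| < 1) ∧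
    (∀ k z, ‖z‖ < δ → |B.tc k x| < 1 → |B.tc k (x + z)| < 1) ∧
    (x ∈ B.carrier → ∀ z, ‖z‖ < δ → (x + z ∈ B.carrier ↔ z ∈ B.cone x)) := by
  classical
  have h1 : ∀ k : Fin 3, ∀ᶠ z in 𝓝 (0 : E4), |B.co k z| < 1 := by
    intro k
    have hc : ContinuousAt (fun z => |B.co k z|) 0 := (B.co k).continuous.abs.continuousAt
    apply hc.eventually (p := fun r => r < 1)
    exact gt_mem_nhds (by simp)
  have h2 : ∀ k : Fin 3, ∀ᶠ z in 𝓝 (0 : E4), (|B.tc k x| < 1 → |B.tc k (x + z)| < 1) := by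
    intro k
    by_cases hk : |B.tc k x| < 1
    · have hc : ContinuousAt (fun z => |B.tc k (x + z)|) 0 :=
        ((B.continuous_tc k).comp (continuous_const.add continuous_id)).abs.continuousAt
      have := hc.eventually (p := fun r => r < 1) (gt_mem_nhds (by simpa using hk))
      filter_upwards [this] with z hz _
      exact hz
    · exact Eventually.of_forall fun z h => absurd h hk
  have h3 := (eventually_all.2 h1).and (eventually_all.2 h2)
  obtain ⟨δ, hδ, hb⟩ := Metric.eventually_nhds_iff.1 h3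
  refine ⟨δ, hδ, fun k z hz => (hb (by simpa using hz)).1 k,
    fun k z hz => (hb (by simpa using hz)).2 k, fun hx z hz => ?_⟩
  have h4 := hb (y := z) (by simpa using hz)
  constructor
  · exact B.mem_cone hx
  · intro hzc
    refine ⟨B.add_sub_c_mem hx hzc.1, fun k => ?_⟩
    rcases (hx.2 k).lt_or_eq with hk | hk
    · exact (h4.2 k hk).le
    · rw [tc_add]
      have h5 := hzc.2 k hk
      have h6 := abs_lt.1 (h4.1 k)
      rw [abs_le]
      rcases eq_or_eq_neg_of_abs_eq hk with h | h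
      · rw [h] at h5 ⊢
        constructor <;> linarith [h6.1, h6.2]
      · rw [h] at h5 ⊢
        constructor <;> linarith [h6.1, h6.2]

/-- `x` is in the relative interior of a face orthogonal to the edge `k` -/
def OnFace (k : Fin 3) (x : E4) : Prop := x ∈ B.carrier ∧ |B.tc k x| = 1 ∧ ∀ l, l ≠ k → |B.tc l x| < 1

/-- `x` is on an edge of the box -/
def OnEdge (x : E4) : Prop := x ∈ B.carrier ∧ ∃ k l, k ≠ l ∧ |B.tc k x| = 1 ∧ |B.tc l x| = 1

theorem trichotomy {x : E4} (hx : x ∈ B.carrier) : x ∈ B.relint ∨ (∃ k, B.OnFace k x) ∨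
    B.OnEdge x := by
  by_cases h : ∀ k, |B.tc k x| < 1
  · exact Or.inl ⟨hx.1, h⟩
  · right
    push Not at h
    obtain ⟨k, hk⟩ := h
    have hk1 := le_antisymm (hx.2 k) hk
    by_cases h' : ∀ l, l ≠ k → |B.tc l x| < 1
    · exact Or.inl ⟨k, hx, hk1, h'⟩
    · right
      push Not at h'
      obtain ⟨l, hl, hl1⟩ := h'
      exact ⟨hx, k, l, hl.symm, hk1, le_antisymm (hx.2 l) hl1⟩

theorem OnFace.unique {k l : Fin 3} {x : E4} (h : B.OnFace k x) (hl : |B.tc l x| = 1) : l = k := by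
  by_contra hne
  have := h.2.2 l hne
  rw [hl] at this
  exact lt_irrefl _ this

theorem OnFace.not_relint {k : Fin 3} {x : E4} (h : B.OnFace k x) : x ∉ B.relint := by
  intro h'
  have := h'.2 k
  rw [h.2.1] at this
  exact lt_irrefl _ this

/-- a vector is zero or parallel to an edge -/
def Ed (e : E4) : Prop := ∃ k, ∃ t : ℝ, e = t • B.v k

theorem ed_v (k : Fin 3) : B.Ed (B.v k) := ⟨k, 1, by simp⟩

theorem Ed.smul {e : E4} (h : B.Ed e) (t : ℝ) : B.Ed (t • e) := by
  obtain ⟨k, s, rfl⟩ := h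
  exact ⟨k, t * s, by rw [smul_smul]⟩

end CBox

end Pool.Agent.Lib.MP_d9a4ca_co
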