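import Mathlib
import Pool.Agent.Lib.MP_d9a4ca_co.Box

/-!
Edge directions of boxes with a common face plane.
-/

set_option autoImplicit false

open Topology Filter Set Metric Submodule
open scoped RealInnerProductSpace

namespace Pool.Agent.Lib.MP_d9a4ca_co

/-- the third index -/
theorem exists_third (k l : Fin 3) : ∃ m, m ≠ k ∧ m ≠ l := by
  fin_cases k <;> fin_cases l <;> decide

theorem eq_third {k l m n : Fin 3} (hkl : k ≠ l) (hm : m ≠ k) (hm' : m ≠ l) (hn : n ≠ k)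
    (hn' : n ≠ l) : n = m := by
  omega

namespace CBox

variable {B B' : CBox}

theorem ed_of_two {k l : Fin 3} (hkl : k ≠ l) {z : E4} (hz : z ∈ B.V) (hk : B.co k z = 0)
    (hl : B.co l z = 0) : B.Ed z := by
  obtain ⟨m, hm, hm'⟩ := exists_third k l
  refine ⟨m, B.co m z, ?_⟩
  rw [B.mem_V_iff] at hz
  conv_lhs => rw [← hz]
  rw [Finset.sum_eq_single m]
  · intro n _ hn
    by_cases h : n = k
    · rw [h, hk, zero_smul]
    · by_cases h' : n = l
      · rw [h', hl, zero_smul]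
      · exact absurd (eq_third hkl hm hm' h h') hn
  · intro h; exact absurd (Finset.mem_univ m) h

theorem ed_of_face {k l : Fin 3} (hkl : l ≠ k) {z : E4} (hz : z ∈ B.F k)
    (hl : B.co l z = 0) : B.Ed z :=
  ed_of_two hkl.symm (B.F_le_V k hz) (B.co_of_mem_F hz) hl

/-- an edge direction in the plane of a face is the direction of an edge of that face -/
theorem exists_index_of_ed {l : Fin 3} {z : E4} (hz : z ∈ B.F l) (h0 : z ≠ 0) (h : B.Ed z) :
    ∃ n, n ≠ l ∧ ∃ t : ℝ, t ≠ 0 ∧ z = t • B.v n := by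
  obtain ⟨n, t, rfl⟩ := h
  have ht : t ≠ 0 := by rintro rfl; simp at h0
  refine ⟨n, ?_, t, ht, rfl⟩
  rintro rfl
  have := B.co_of_mem_F hz
  rw [map_smul, B.co_self, smul_eq_mul, mul_one] at this
  exact ht this

/-- if one edge direction of the face is an edge direction of the other box then both are -/
theorem aligned_of_one {k l m : Fin 3} (hF : B.F k = B'.F l) (hm : m ≠ k)
    (h : B'.Ed (B.v m)) : ∀ n, n ≠ k → B'.Ed (B.v n) := by
  intro n hn
  by_cases hnm : n = m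
  · rw [hnm]; exact h
  obtain ⟨p, hp, t, ht, hpt⟩ := exists_index_of_ed (hF ▸ B.v_mem_F hm) (B.ne m) h
  refine ed_of_face hp (hF ▸ B.v_mem_F hn) ?_
  rw [co_eq_zero_iff]
  have h1 := B.orth m n (Ne.symm hnm)
  rw [hpt, inner_smul_left] at h1
  simpa [ht] using h1

theorem aligned_symm {k l : Fin 3} (hF : B.F k = B'.F l) (h : ∀ n, n ≠ k → B'.Ed (B.v n)) :
    ∀ n, n ≠ l → B.Ed (B'.v n) := by
  obtain ⟨m, hm, -⟩ := exists_third k k
  obtain ⟨p, hp, t, ht, hpt⟩ := exists_index_of_ed (hF ▸ B.v_mem_F hm) (B.ne m) (h m hm)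
  refine aligned_of_one hF.symm hp ⟨m, t⁻¹, ?_⟩
  rw [hpt, smul_smul, inv_mul_cancel₀ ht, one_smul]

theorem Ed.trans {k : Fin 3} (h : ∀ n, n ≠ k → B'.Ed (B.v n)) {z : E4}
    (hz : z ∈ B.F k) (hzE : B.Ed z) : B'.Ed z := by
  by_cases h0 : z = 0
  · exact ⟨0, 0, by simp [h0]⟩
  obtain ⟨n, hn, t, -, rfl⟩ := exists_index_of_ed hz h0 hzE
  exact CBox.Ed.smul _ (h n hn) t

theorem not_le_span (B : CBox) (k : Fin 3) (z : E4) : ¬ B.F k ≤ span ℝ {z} := by
  intro h
  have h1 := Submodule.finrank_mono h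
  rw [B.finrank_F k] at h1
  have h2 : Module.finrank ℝ (span ℝ ({z} : Set E4)) ≤ 1 := by
    have := finrank_span_le_card (R := ℝ) ({z} : Set E4)
    simpa using this
  omega

end CBox

end Pool.Agent.Lib.MP_d9a4ca_co
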