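import Mathlib
import Pool.Agent.Lib.MP_c4f91a_co.IOD
import Pool.Agent.Lib.MP_74810d_gt.SphereSC

/-!
Invariance of domain in spaces locally homeomorphic to `ℝ³`, and the topology of the 3-sphere.
-/

set_option autoImplicit false

open Topology Filter Set Metric

namespace Pool.Agent.Lib.MP_d9a4ca_co

/-- three-dimensional real space (sup norm) -/
abbrev R3 : Type := Fin 3 → ℝ

/-- the space is locally homeomorphic to `ℝ³` -/
def LocR3 (X : Type*) [TopologicalSpace X] : Prop :=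
  ∀ x : X, ∃ e : OpenPartialHomeomorph X R3, x ∈ e.source

theorem LocR3.of_homeomorph {X Y : Type*} [TopologicalSpace X] [TopologicalSpace Y]
    (h : X ≃ₜ Y) (hY : LocR3 Y) : LocR3 X := by
  intro x
  obtain ⟨e, he⟩ := hY (h x)
  exact ⟨h.toOpenPartialHomeomorph.trans e, by simpa using he⟩

theorem locR3_sphere : LocR3 (sphere (0 : EuclideanSpace ℝ (Fin 4)) 1) := by
  intro x
  refine ⟨(chartAt (EuclideanSpace ℝ (Fin 3)) x).trans
    (EuclideanSpace.equiv (Fin 3) ℝ).toHomeomorph.toOpenPartialHomeomorph, ?_⟩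
  simp

/-- the image of an open set of `ℝ³` under a continuous injection is open -/
theorem LocR3.isOpen_image {X : Type*} [TopologicalSpace X] (hX : LocR3 X) {ψ : R3 → X}
    {W : Set R3} (hW : IsOpen W) (hc : ContinuousOn ψ W) (hi : InjOn ψ W) : IsOpen (ψ '' W) := by
  rw [isOpen_iff_mem_nhds]
  rintro _ ⟨w, hw, rfl⟩
  obtain ⟨e, he⟩ := hX (ψ w)
  set W' := W ∩ ψ ⁻¹' e.source with hW'
  have hW'o : IsOpen W' := hc.isOpen_inter_preimage hW e.open_source
  have hopen : IsOpen ((fun z => e (ψ z)) '' W') := by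
    apply Pool.Agent.Lib.MP_c4f91a_co.invariance_of_domain hW'o
    · exact e.continuousOn.comp (hc.mono inter_subset_left) fun z hz => hz.2
    · intro z hz z' hz' h
      exact hi hz.1 hz'.1 (e.injOn hz.2 hz'.2 h)
  have h2 : IsOpen (e.source ∩ e ⁻¹' ((fun z => e (ψ z)) '' W')) :=
    e.isOpen_inter_preimage hopen
  refine mem_of_superset (h2.mem_nhds ⟨he, w, ⟨hw, he⟩, rfl⟩) ?_
  rintro y ⟨hy, z, hz, hzy⟩
  exact ⟨z, hz.1, e.injOn hz.2 hy hzy⟩

/-- the image of an open set under a continuous injection to `ℝ³` is open -/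
theorem LocR3.isOpen_image' {X : Type*} [TopologicalSpace X] (hX : LocR3 X) {θ : X → R3}
    {U : Set X} (hU : IsOpen U) (hc : ContinuousOn θ U) (hi : InjOn θ U) : IsOpen (θ '' U) := by
  rw [isOpen_iff_mem_nhds]
  rintro _ ⟨x, hx, rfl⟩
  obtain ⟨e, he⟩ := hX x
  set O := e.target ∩ e.symm ⁻¹' U with hO
  have hOo : IsOpen O := e.isOpen_inter_preimage_symm hU
  have hopen : IsOpen ((fun z => θ (e.symm z)) '' O) := by
    apply Pool.Agent.Lib.MP_c4f91a_co.invariance_of_domain hOo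
    · exact hc.comp (e.continuousOn_symm.mono inter_subset_left) fun z hz => hz.2
    · intro z hz z' hz' h
      exact e.symm.injOn hz.1 hz'.1 (hi hz.2 hz'.2 h)
  refine mem_of_superset (hopen.mem_nhds ⟨e x, ⟨e.map_source he, ?_⟩, ?_⟩) ?_
  · rw [mem_preimage, e.left_inv he]; exact hx
  · simp [e.left_inv he]
  · rintro _ ⟨z, hz, rfl⟩
    exact ⟨e.symm z, hz.2, rfl⟩

variable {E : Type*} [MetricSpace E]

/-- invariance of domain for a subset of a metric space -/
theorem LocR3.exists_ball {M : Set E} (hM : LocR3 M) {ψ : R3 → E} {W : Set R3} (hW : IsOpen W)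
    (hc : ContinuousOn ψ W) (hi : InjOn ψ W) (hm : MapsTo ψ W M) {w : R3} (hw : w ∈ W) :
    ∃ r > 0, ∀ y ∈ M, dist y (ψ w) < r → y ∈ ψ '' W := by
  classical
  have hM0 : Nonempty M := ⟨⟨ψ w, hm hw⟩⟩
  let ψ' : R3 → M := fun z => if h : z ∈ W then ⟨ψ z, hm h⟩ else Classical.choice hM0
  have hψ' : ∀ z ∈ W, (ψ' z : E) = ψ z := fun z hz => by simp [ψ', hz]
  have hc' : ContinuousOn ψ' W := by
    rw [continuousOn_iff_continuous_domRestrict] at hc ⊢
    rw [continuous_induced_rng]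
    refine hc.congr fun z => ?_
    exact (hψ' z z.2).symm
  have ho := hM.isOpen_image hW hc' (fun z hz z' hz' h => hi hz hz' (by
    have := congrArg Subtype.val h
    rwa [hψ' z hz, hψ' z' hz'] at this))
  obtain ⟨r, hr, hb⟩ := Metric.isOpen_iff.1 ho (ψ' w) ⟨w, hw, rfl⟩
  refine ⟨r, hr, fun y hy hd => ?_⟩
  have h1 : (⟨y, hy⟩ : M) ∈ Metric.ball (ψ' w) r := by
    rw [Metric.mem_ball, Subtype.dist_eq, hψ' w hw]
    exact hd
  obtain ⟨z, hz, hzy⟩ := hb h1
  exact ⟨z, hz, by rw [← hψ' z hz, hzy]⟩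

/-- no boundary: a continuous injection of a neighbourhood of a point of `M` into `ℝ³` covers
a neighbourhood -/
theorem LocR3.image_mem_nhds {M : Set E} (hM : LocR3 M) {θ : E → R3} {x : E} (hx : x ∈ M)
    {r : ℝ} (hr : 0 < r) (hc : ContinuousOn θ (M ∩ ball x r)) (hi : InjOn θ (M ∩ ball x r)) :
    θ '' (M ∩ ball x r) ∈ 𝓝 (θ x) := by
  have ho : IsOpen ((fun y : M => θ y) '' ((fun y : M => (y : E)) ⁻¹' ball x r)) := by
    apply hM.isOpen_image' (isOpen_ball.preimage continuous_subtype_val)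
    · exact hc.comp continuous_subtype_val.continuousOn fun y hy => ⟨y.2, hy⟩
    · intro y hy z hz h
      exact Subtype.ext (hi ⟨y.2, hy⟩ ⟨z.2, hz⟩ h)
  refine mem_of_superset (ho.mem_nhds ⟨⟨x, hx⟩, mem_ball_self hr, rfl⟩) ?_
  rintro _ ⟨y, hy, rfl⟩
  exact ⟨y, ⟨y.2, hy⟩, rfl⟩

theorem simplyConnected_of_homeomorph {X : Type*} [TopologicalSpace X]
    (h : X ≃ₜ sphere (0 : EuclideanSpace ℝ (Fin 4)) 1) : SimplyConnectedSpace X := by
  have h1 : SimplyConnectedSpace (sphere (0 : EuclideanSpace ℝ (Fin 4)) 1) :=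
    Pool.Agent.MP74810d.sphere_simplyConnected (by simp)
  exact h.toHomotopyEquiv.simplyConnectedSpace

theorem LocR3.locallyPathConnected {X : Type*} [TopologicalSpace X] (hX : LocR3 X) :
    LocallyPathConnectedSpace X := by
  choose e he using hX
  let _ : ChartedSpace R3 X :=
    { atlas := range e
      chartAt := e
      mem_chart_source := he
      chart_mem_atlas := fun x => ⟨x, rfl⟩ }
  exact ChartedSpace.locallyPathConnectedSpace R3 X

end Pool.Agent.Lib.MP_d9a4ca_co
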