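import Mathlib
import Pool.Agent.Lib.MP_d9a4ca_co.Box
import Pool.Agent.Lib.MP_d9a4ca_co.Topo

/-!
Local structure of a closed 3-manifold in `ℝ⁴` which is a union of boxes.
-/

set_option autoImplicit false

open Topology Filter Set Metric Submodule
open scoped RealInnerProductSpace

namespace Pool.Agent.Lib.MP_d9a4ca_co

/-- a closed 3-manifold in `ℝ⁴` made of boxes with disjoint relative interiors -/
structure Config (ι : Type*) where
  B : ι → CBox
  disj : ∀ i j, i ≠ j → Disjoint (B i).relint (B j).relint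
  loc : LocR3 (⋃ i, (B i).carrier : Set E4)

namespace Config

variable {ι : Type*} (C : Config ι)

/-- the manifold -/
def M : Set E4 := ⋃ i, (C.B i).carrier

theorem mem_M {x : E4} : x ∈ C.M ↔ ∃ i, x ∈ (C.B i).carrier := Set.mem_iUnion

theorem relint_nhds {i : ι} {x : E4} (hx : x ∈ (C.B i).relint) :
    ∃ r > 0, ∀ y ∈ C.M, dist y x < r → y ∈ (C.B i).relint := by
  obtain ⟨a, ha, rfl⟩ := (C.B i).mem_relint_iff.1 hx
  have hW : IsOpen {a : R3 | ∀ k, |a k| < 1} := by
    simp only [ofPred_forall]
    exact isOpen_iInter_of_finite fun k =>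
      isOpen_lt (continuous_apply k).abs continuous_const
  obtain ⟨r, hr, hb⟩ := C.loc.exists_ball (ψ := (C.B i).pt) hW (C.B i).continuous_pt.continuousOn
    (fun a _ b _ h => by
      funext k
      rw [← (C.B i).tc_pt k a, h, (C.B i).tc_pt])
    (fun b hb => mem_iUnion.2 ⟨i, (C.B i).relint_subset ((C.B i).mem_relint_iff.2 ⟨b, hb, rfl⟩)⟩)
    (w := a) ha
  refine ⟨r, hr, fun y hy hd => ?_⟩
  obtain ⟨b, hb', rfl⟩ := hb y hy hd
  exact (C.B i).mem_relint_iff.2 ⟨b, hb', rfl⟩

/-- a point in the relative interior of a box lies in no other box -/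
theorem relint_unique {i j : ι} {x : E4} (hi : x ∈ (C.B i).relint) (hj : x ∈ (C.B j).carrier) :
    i = j := by
  by_contra hne
  obtain ⟨r, hr, h⟩ := C.relint_nhds hi
  obtain ⟨y, hy, hd⟩ := (C.B j).exists_relint_near hj hr
  exact Set.disjoint_left.1 (C.disj i j hne) (h y (C.mem_M.2 ⟨j, (C.B j).relint_subset hy⟩) hd) hy

/-- near a point, only the boxes containing it matter -/
theorem exists_star_rad [Finite ι] (x : E4) : ∃ r > 0, ∀ i, ∀ y, dist y x < r →
    y ∈ (C.B i).carrier → x ∈ (C.B i).carrier := by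
  have h : ∀ i, ∀ᶠ y in 𝓝 x, (y ∈ (C.B i).carrier → x ∈ (C.B i).carrier) := by
    intro i
    by_cases hx : x ∈ (C.B i).carrier
    · exact Eventually.of_forall fun y _ => hx
    · have := (C.B i).isClosed_carrier.isOpen_compl.mem_nhds hx
      filter_upwards [this] with y hy hy'
      exact absurd hy' hy
  obtain ⟨r, hr, hb⟩ := Metric.eventually_nhds_iff.1 (eventually_all.2 h)
  exact ⟨r, hr, fun i y hy => hb hy i⟩

/-- there is no boundary -/
theorem exists_other [Finite ι] {i : ι} {x : E4} (hx : x ∈ (C.B i).carrier)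
    (hx' : x ∉ (C.B i).relint) : ∃ j, j ≠ i ∧ x ∈ (C.B j).carrier := by
  by_contra hcon
  push Not at hcon
  obtain ⟨r, hr, h⟩ := C.exists_star_rad x
  have hsub : ∀ y ∈ C.M ∩ ball x r, y ∈ (C.B i).carrier := by
    rintro y ⟨hy, hyr⟩
    obtain ⟨j, hj⟩ := C.mem_M.1 hy
    have hxj := h j y (mem_ball.1 hyr) hj
    by_cases hji : j = i
    · exact hji ▸ hj
    · exact absurd hxj (hcon j hji)
  have h1 := C.loc.image_mem_nhds (θ := fun y => fun k => (C.B i).tc k y) (x := x)
    (C.mem_M.2 ⟨i, hx⟩) hr
    (continuous_pi fun k => (C.B i).continuous_tc k).continuousOn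
    (fun y hy z hz hyz => by
      rw [← (C.B i).pt_tc (hsub y hy).1, ← (C.B i).pt_tc (hsub z hz).1]
      exact congrArg _ hyz)
  apply hx'
  refine ⟨hx.1, fun k => ?_⟩
  by_contra hk
  push Not at hk
  have hk1 : |(C.B i).tc k x| = 1 := le_antisymm (hx.2 k) hk
  -- move outside
  obtain ⟨ε, hε, hb⟩ := Metric.mem_nhds_iff.1 h1
  set s := (C.B i).tc k x with hs
  have h2 : (Function.update (fun k => (C.B i).tc k x) k (s * (1 + ε / 2)) : R3) ∈
      ball (fun k => (C.B i).tc k x : R3) ε := by
    rw [mem_ball, dist_pi_lt_iff hε]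
    intro l
    by_cases hl : l = k
    · subst hl
      rw [Function.update_self, Real.dist_eq]
      have : s * (1 + ε / 2) - (C.B i).tc l x = s * (ε / 2) := by rw [← hs]; ring
      rw [this, abs_mul, hk1, one_mul, abs_of_pos (by linarith)]
      linarith
    · rw [Function.update_of_ne hl, dist_self]
      exact hε
  obtain ⟨y, hy, hyx⟩ := hb h2
  have h3 := (hsub y hy).2 k
  have h4 := congrFun hyx k
  simp only [Function.update_self] at h4
  rw [h4, abs_mul, hk1, one_mul, abs_of_pos (by linarith)] at h3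
  linarith

/-- the point lies on an edge of one of the boxes -/
def S (x : E4) : Prop := ∃ i, (C.B i).OnEdge x

theorem OnFace_of_two {i j : ι} (hij : i ≠ j) {x : E4} (hS : ¬ C.S x)
    (hi : x ∈ (C.B i).carrier) (hj : x ∈ (C.B j).carrier) : ∃ k, (C.B i).OnFace k x := by
  rcases (C.B i).trichotomy hi with h | h | h
  · exact absurd (C.relint_unique h hj) hij
  · exact h
  · exact absurd ⟨i, h⟩ hS


end Config

/-- moving inside from a face -/
theorem CBox.OnFace.move {B : CBox} {k : Fin 3} {y : E4} (h : B.OnFace k y) {t : ℝ} (ht : 0 < t)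
    (ht2 : t < 2) : y + t • (-(B.tc k y) • B.v k) ∈ B.relint := by
  refine ⟨B.add_sub_c_mem h.1 (B.V.smul_mem _ (B.V.smul_mem _ (B.v_mem k))), fun l => ?_⟩
  rw [B.tc_add, map_smul, map_smul, smul_eq_mul, smul_eq_mul, B.co_v]
  by_cases hl : l = k
  · subst hl
    simp only [if_true, mul_one]
    have : B.tc l y + t * -B.tc l y = B.tc l y * (1 - t) := by ring
    rw [this, abs_mul, h.2.1, one_mul, abs_lt]
    constructor <;> linarith
  · simp only [hl, if_false, mul_zero, add_zero]
    exact h.2.2 l hl

namespace Config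

variable {ι : Type*} (C : Config ι)

theorem no_common_side {i j : ι} (hij : i ≠ j) {y : E4} {k l : Fin 3}
    (hi : (C.B i).OnFace k y) (hj : (C.B j).OnFace l y) {s t : ℝ} (hs : 0 < s) (ht : 0 < t) :
    s • (-((C.B i).tc k y) • (C.B i).v k) ≠ t • (-((C.B j).tc l y) • (C.B j).v l) := by
  intro h
  set p := -((C.B i).tc k y) • (C.B i).v k
  set q := -((C.B j).tc l y) • (C.B j).v l
  set ε : ℝ := min (1 / s) (1 / t) with hε
  have hε0 : 0 < ε := lt_min (by positivity) (by positivity)
  have h1 : ε * s ≤ 1 := by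
    have : ε ≤ 1 / s := min_le_left _ _
    calc ε * s ≤ 1 / s * s := by gcongr
      _ = 1 := by field_simp
  have h2 : ε * t ≤ 1 := by
    have : ε ≤ 1 / t := min_le_right _ _
    calc ε * t ≤ 1 / t * t := by gcongr
      _ = 1 := by field_simp
  have m1 := hi.move (t := ε * s) (by positivity) (by linarith)
  have m2 := hj.move (t := ε * t) (by positivity) (by linarith)
  have e : (ε * s) • p = (ε * t) • q := by rw [mul_smul, mul_smul, h]
  rw [← e] at m2
  exact Set.disjoint_left.1 (C.disj i j hij) m1 m2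

/-- two boxes on the two sides of a common plane fill a neighbourhood -/
theorem two_faces {i j : ι} (hij : i ≠ j) {y : E4} {k l : Fin 3}
    (hi : (C.B i).OnFace k y) (hj : (C.B j).OnFace l y) (hF : (C.B i).F k = (C.B j).F l) :
    ∃ r > 0, ∀ x ∈ C.M, dist x y < r → x ∈ (C.B i).carrier ∨ x ∈ (C.B j).carrier := by
  classical
  set p := -((C.B i).tc k y) • (C.B i).v k with hp
  set q := -((C.B j).tc l y) • (C.B j).v l with hq
  have htk : (C.B i).tc k y ≠ 0 := by
    intro h
    have := hi.2.1
    rw [h] at this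
    simp at this
  have htl : (C.B j).tc l y ≠ 0 := by
    intro h
    have := hj.2.1
    rw [h] at this
    simp at this
  have hp0 : p ≠ 0 := smul_ne_zero (neg_ne_zero.2 htk) ((C.B i).ne k)
  have hq0 : q ≠ 0 := smul_ne_zero (neg_ne_zero.2 htl) ((C.B j).ne l)
  obtain ⟨δi, hδi, -, -, hci⟩ := (C.B i).exists_rad y
  obtain ⟨δj, hδj, -, -, hcj⟩ := (C.B j).exists_rad y
  have hci := hci hi.1
  have hcj := hcj hj.1
  let zz : R3 → E4 := fun a => ∑ m, (if m = k then 0 else a m) • (C.B i).v m
  have hzz : ∀ a, zz a ∈ (C.B i).F k := by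
    intro a
    refine Submodule.sum_mem _ fun m _ => ?_
    by_cases hm : m = k
    · simp [hm]
    · exact ((C.B i).F k).smul_mem _ ((C.B i).v_mem_F hm)
  let ψ : R3 → E4 := fun a => y + (zz a + (max (a k) 0) • p + (max (-a k) 0) • q)
  have hψc : Continuous ψ := by
    have h1 : Continuous zz := by
      refine continuous_finsetSum _ fun m _ => ?_
      by_cases hm : m = k
      · simp only [hm, if_true]; exact continuous_const
      · simp only [hm, if_false]
        exact (continuous_apply m).smul continuous_const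
    simp only [ψ]
    fun_prop
  have hψ0 : ψ 0 = y := by simp [ψ, zz]
  have hW : IsOpen {a : R3 | dist (ψ a) y < min δi δj} :=
    isOpen_lt (hψc.dist continuous_const) continuous_const
  have hin : ∀ a, dist (ψ a) y < min δi δj →
      ψ a ∈ (C.B i).carrier ∨ ψ a ∈ (C.B j).carrier := by
    intro a ha
    have hn : ‖zz a + (max (a k) 0) • p + (max (-a k) 0) • q‖ < min δi δj := by
      have : dist (ψ a) y = ‖zz a + (max (a k) 0) • p + (max (-a k) 0) • q‖ := by
        rw [dist_eq_norm]; simp only [ψ]; rw [add_sub_cancel_left]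
      rwa [this] at ha
    rcases le_or_gt 0 (a k) with hk | hk
    · left
      apply (hci _ (hn.trans_le (min_le_left _ _))).2
      rw [max_eq_left hk, max_eq_right (by linarith : -a k ≤ 0), zero_smul, add_zero]
      refine ⟨?_, fun m hm => ?_⟩
      · exact (C.B i).V.add_mem ((C.B i).F_le_V k (hzz a)) ((C.B i).V.smul_mem _
          ((C.B i).V.smul_mem _ ((C.B i).v_mem k)))
      · have := hi.unique _ hm
        subst this
        rw [map_add, (C.B i).co_of_mem_F (hzz a), map_smul, hp, map_smul, (C.B i).co_self]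
        simp only [smul_eq_mul, mul_one, zero_add]
        nlinarith [sq_nonneg ((C.B i).tc m y)]
    · right
      apply (hcj _ (hn.trans_le (min_le_right _ _))).2
      rw [max_eq_right hk.le, max_eq_left (by linarith : 0 ≤ -a k), zero_smul, add_zero]
      have hz' : zz a ∈ (C.B j).F l := hF ▸ hzz a
      refine ⟨?_, fun m hm => ?_⟩
      · exact (C.B j).V.add_mem ((C.B j).F_le_V l hz') ((C.B j).V.smul_mem _
          ((C.B j).V.smul_mem _ ((C.B j).v_mem l)))
      · have := hj.unique _ hm
        subst this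
        rw [map_add, (C.B j).co_of_mem_F hz', map_smul, hq, map_smul, (C.B j).co_self]
        simp only [smul_eq_mul, mul_one, zero_add]
        nlinarith [sq_nonneg ((C.B j).tc m y)]
  have hinj : Function.Injective ψ := by
    intro a b hab
    have hab' : zz a + (max (a k) 0) • p + (max (-a k) 0) • q =
        zz b + (max (b k) 0) • p + (max (-b k) 0) • q := add_left_cancel hab
    have hm : ∀ m, m ≠ k → a m = b m := by
      intro m hm
      have h1 : (C.B i).co m p = 0 := by
        rw [hp, map_smul, (C.B i).co_ne hm, smul_zero]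
      have h2 : (C.B i).co m q = 0 := by
        rw [hq, map_smul]
        have h3 : (C.B i).v m ∈ (C.B j).F l := hF ▸ (C.B i).v_mem_F hm
        have h4 := (C.B j).co_of_mem_F h3
        rw [(C.B j).co_eq_zero_iff] at h4
        have h5 : (C.B i).co m ((C.B j).v l) = 0 := by
          rw [(C.B i).co_eq_zero_iff, real_inner_comm]; exact h4
        rw [h5, smul_zero]
      have h3 : ∀ a, (C.B i).co m (zz a) = a m := by
        intro a
        have := (C.B i).co_sum m (fun m => if m = k then 0 else a m)
        simp only [hm, if_false] at this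
        exact this
      have h4 := congrArg ((C.B i).co m) hab'
      simp only [map_add, map_smul, h1, h2, smul_zero, add_zero, h3] at h4
      exact h4
    have hzab : zz a = zz b := by
      refine Finset.sum_congr rfl fun m _ => ?_
      by_cases h : m = k
      · simp [h]
      · simp [h, hm m h]
    rw [hzab, add_assoc, add_assoc] at hab'
    have hab2 := add_left_cancel hab'
    have hk : a k = b k := by
      rcases le_or_gt 0 (a k) with h1 | h1 <;> rcases le_or_gt 0 (b k) with h2 | h2
      · rw [max_eq_left h1, max_eq_left h2, max_eq_right (by linarith : -a k ≤ 0),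
          max_eq_right (by linarith : -b k ≤ 0), zero_smul, add_zero, add_zero] at hab2
        exact smul_left_injective ℝ hp0 hab2
      · rw [max_eq_left h1, max_eq_right h2.le, max_eq_right (by linarith : -a k ≤ 0),
          max_eq_left (by linarith : 0 ≤ -b k), zero_smul, zero_smul, add_zero, zero_add] at hab2
        rcases h1.eq_or_lt with h3 | h3
        · rw [← h3, zero_smul] at hab2
          rcases smul_eq_zero.1 hab2.symm with h4 | h4
          · linarith
          · exact absurd h4 hq0
        · exact absurd hab2 (C.no_common_side hij hi hj h3 (by linarith))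
      · rw [max_eq_right h1.le, max_eq_left h2, max_eq_left (by linarith : 0 ≤ -a k),
          max_eq_right (by linarith : -b k ≤ 0), zero_smul, zero_smul, add_zero, zero_add] at hab2
        rcases h2.eq_or_lt with h3 | h3
        · rw [← h3, zero_smul] at hab2
          rcases smul_eq_zero.1 hab2 with h4 | h4
          · linarith
          · exact absurd h4 hq0
        · exact absurd hab2.symm (C.no_common_side hij hi hj h3 (by linarith))
      · rw [max_eq_right h1.le, max_eq_right h2.le, max_eq_left (by linarith : 0 ≤ -a k),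
          max_eq_left (by linarith : 0 ≤ -b k), zero_smul, zero_add, zero_add] at hab2
        have := smul_left_injective ℝ hq0 hab2
        linarith
    funext m
    by_cases h : m = k
    · rw [h]; exact hk
    · exact hm m h
  obtain ⟨r, hr, hb⟩ := C.loc.exists_ball (ψ := ψ) hW hψc.continuousOn hinj.injOn
    (fun a ha => (hin a ha).elim (fun h => mem_iUnion.2 ⟨i, h⟩) (fun h => mem_iUnion.2 ⟨j, h⟩))
    (w := 0) (by
      change dist (ψ 0) y < min δi δj
      rw [hψ0, dist_self]; exact lt_min hδi hδj)
  rw [hψ0] at hb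
  refine ⟨r, hr, fun x hx hd => ?_⟩
  obtain ⟨a, ha, rfl⟩ := hb x hx hd
  exact hin a ha

/-- two boxes on the two sides of a common plane are the only ones -/
theorem star_two {i j : ι} (hij : i ≠ j) {y : E4} {k l : Fin 3}
    (hi : (C.B i).OnFace k y) (hj : (C.B j).OnFace l y) (hF : (C.B i).F k = (C.B j).F l)
    {m : ι} (hm : y ∈ (C.B m).carrier) : m = i ∨ m = j := by
  obtain ⟨r, hr, h⟩ := C.two_faces hij hi hj hF
  obtain ⟨x, hx, hd⟩ := (C.B m).exists_relint_near hm hr
  rcases h x (C.mem_M.2 ⟨m, (C.B m).relint_subset hx⟩) hd with h1 | h1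
  · exact Or.inl (C.relint_unique hx h1)
  · exact Or.inr (C.relint_unique hx h1)

/-- **Generic face points.** -/
theorem exists_partner [Finite ι] {i : ι} {k : Fin 3} {x : E4} (hi : (C.B i).OnFace k x)
    (hS : ¬ C.S x) : ∃ j l, j ≠ i ∧ (C.B j).OnFace l x ∧ (C.B i).F k = (C.B j).F l ∧
      ∀ m, x ∈ (C.B m).carrier → m = i ∨ m = j := by
  classical
  -- a box `j` with `F ≤ V j`
  obtain ⟨j, hji, hxj, hFV⟩ : ∃ j, j ≠ i ∧ x ∈ (C.B j).carrier ∧ (C.B i).F k ≤ (C.B j).V := by
    by_contra hcon
    push Not at hcon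
    obtain ⟨v, hv, hvN⟩ := exists_avoid (ι := {j : ι // j ≠ i ∧ x ∈ (C.B j).carrier})
      ((C.B i).F k) (fun j => (C.B j.1).V) (fun j => hcon j.1 j.2.1 j.2.2)
    obtain ⟨r, hr, hstar⟩ := C.exists_star_rad x
    obtain ⟨δ, hδ, -, hδ2, hδ3⟩ := (C.B i).exists_rad x
    have hδ3 := hδ3 hi.1
    set ε : ℝ := min r δ / (2 * (‖v‖ + 1)) with hε
    have hmin : 0 < min r δ := lt_min hr hδ
    have hv1 : 0 < ‖v‖ + 1 := by positivity
    have hε0 : 0 < ε := by positivity
    have hnorm : ‖ε • v‖ < min r δ := by
      rw [norm_smul, Real.norm_of_nonneg hε0.le, hε, div_mul_eq_mul_div, div_lt_iff₀ (by positivity)]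
      nlinarith [norm_nonneg v]
    have h1 : x + ε • v ∈ (C.B i).carrier := by
      apply (hδ3 _ (hnorm.trans_le (min_le_right _ _))).2
      refine ⟨(C.B i).V.smul_mem _ ((C.B i).F_le_V k hv), fun m hm => ?_⟩
      have := hi.unique _ hm
      subst this
      rw [map_smul, (C.B i).co_of_mem_F hv]; simp
    have h2 : x + ε • v ∉ (C.B i).relint := by
      intro h
      have := h.2 k
      rw [(C.B i).tc_add, map_smul, (C.B i).co_of_mem_F hv, smul_zero, add_zero, hi.2.1] at this
      exact lt_irrefl _ this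
    obtain ⟨j, hji, hj⟩ := C.exists_other h1 h2
    have hxj := hstar j (x + ε • v) (by
      rw [dist_eq_norm, add_sub_cancel_left]
      exact hnorm.trans_le (min_le_left _ _)) hj
    have h3 := (C.B j).mem_V_of_add hxj hj
    have h4 : v ∈ (C.B j).V := by
      have := (C.B j).V.smul_mem ε⁻¹ h3
      rwa [smul_smul, inv_mul_cancel₀ hε0.ne', one_smul] at this
    exact hvN ⟨j, hji, hxj⟩ h4
  obtain ⟨l, hl⟩ := C.OnFace_of_two hji hS hxj hi.1
  -- all vectors of the face plane have vanishing coordinate
  have hco : ∀ v ∈ (C.B i).F k, 0 ≤ (C.B j).tc l x * (C.B j).co l v := by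
    intro v hv
    by_contra hneg
    push Not at hneg
    obtain ⟨δi, hδi, -, -, hδi3⟩ := (C.B i).exists_rad x
    obtain ⟨δj, hδj, hδj1, hδj2, hδj3⟩ := (C.B j).exists_rad x
    have hδi3 := hδi3 hi.1
    have hδj3 := hδj3 hxj
    set ε : ℝ := min δi δj / (2 * (‖v‖ + 1)) with hε
    have hmin : 0 < min δi δj := lt_min hδi hδj
    have hε0 : 0 < ε := by positivity
    have hnorm : ‖ε • v‖ < min δi δj := by
      rw [norm_smul, Real.norm_of_nonneg hε0.le, hε, div_mul_eq_mul_div, div_lt_iff₀ (by positivity)]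
      nlinarith [norm_nonneg v]
    have h1 : x + ε • v ∈ (C.B i).carrier := by
      apply (hδi3 _ (hnorm.trans_le (min_le_left _ _))).2
      refine ⟨(C.B i).V.smul_mem _ ((C.B i).F_le_V k hv), fun m hm => ?_⟩
      have := hi.unique _ hm
      subst this
      rw [map_smul, (C.B i).co_of_mem_F hv]; simp
    have h2 : x + ε • v ∈ (C.B j).relint := by
      refine ⟨(C.B j).add_sub_c_mem hxj ((C.B j).V.smul_mem _ (hFV hv)), fun m => ?_⟩
      by_cases hm : m = l
      · subst hm
        rw [(C.B j).tc_add]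
        have h3 := abs_lt.1 (hδj1 m (ε • v) (hnorm.trans_le (min_le_right _ _)))
        rw [map_smul, smul_eq_mul] at h3 ⊢
        have hp : (C.B j).tc m x * (ε * (C.B j).co m v) < 0 := by
          have : (C.B j).tc m x * (ε * (C.B j).co m v) =
            ε * ((C.B j).tc m x * (C.B j).co m v) := by ring
          rw [this]; exact mul_neg_of_pos_of_neg hε0 hneg
        rw [abs_lt]
        rcases eq_or_eq_neg_of_abs_eq hl.2.1 with h | h
        · rw [h] at hp ⊢
          constructor <;> linarith [h3.1, h3.2]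
        · rw [h] at hp ⊢
          constructor <;> linarith [h3.1, h3.2]
      · exact hδj2 m _ (hnorm.trans_le (min_le_right _ _)) (hl.2.2 m hm)
    exact hji (C.relint_unique h2 h1)
  have htl : (C.B j).tc l x ≠ 0 := by
    intro h
    have := hl.2.1
    rw [h] at this
    simp at this
  have hco0 : ∀ v ∈ (C.B i).F k, (C.B j).co l v = 0 := by
    intro v hv
    have h1 := hco v hv
    have h2 := hco (-v) (neg_mem hv)
    rw [map_neg] at h2
    have h3 : (C.B j).tc l x * (C.B j).co l v = 0 := by linarith
    exact (mul_eq_zero.1 h3).resolve_left htl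
  have hle : (C.B i).F k ≤ (C.B j).F l := fun v hv => (C.B j).mem_F_iff.2 ⟨hFV hv, hco0 v hv⟩
  have hF : (C.B i).F k = (C.B j).F l := by
    apply Submodule.eq_of_le_of_finrank_eq hle
    rw [CBox.finrank_F, CBox.finrank_F]
  exact ⟨j, l, hji, hl, hF, fun m hm => C.star_two hji.symm hi hl hF hm⟩

end Config

end Pool.Agent.Lib.MP_d9a4ca_co
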