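import Mathlib
import Pool.Agent.Lib.MP_d9a4ca_co.Local
import Pool.Agent.Lib.MP_d9a4ca_co.Frame

/-!
Boxes on the two sides of a common plane have the same edge directions in this plane.
-/

set_option autoImplicit false

open Topology Filter Set Metric Submodule
open scoped RealInnerProductSpace

namespace Pool.Agent.Lib.MP_d9a4ca_co

theorem finite_abs_affine (a b : ℝ) (hb : b ≠ 0) : {t : ℝ | |a + t * b| = 1}.Finite := by
  apply ((Set.finite_singleton ((1 - a) / b)).union (Set.finite_singleton ((-1 - a) / b))).subset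
  intro t ht
  rcases eq_or_eq_neg_of_abs_eq ht with h | h
  · left
    rw [mem_singleton_iff, eq_div_iff hb]; linarith
  · right
    rw [mem_singleton_iff, eq_div_iff hb]; linarith

theorem exists_small {δ : ℝ} (hδ : 0 < δ) {s : Set ℝ} (hs : s.Finite) : ∃ t, 0 < t ∧ t < δ ∧
    t ∉ s := by
  obtain ⟨t, ht, hts⟩ := (Ioo_infinite hδ).exists_notMem_finite hs
  exact ⟨t, ht.1, ht.2, hts⟩

namespace Config

variable {ι : Type*} [Finite ι] (C : Config ι)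

theorem finite_line_S (y v : E4) (hv : ∀ j, ¬ (C.B j).Ed v) : {t : ℝ | C.S (y + t • v)}.Finite := by
  have h1 : ∀ (p : ι × Fin 3 × Fin 3), {t : ℝ | y + t • v ∈ (C.B p.1).carrier ∧ p.2.1 ≠ p.2.2 ∧
      |(C.B p.1).tc p.2.1 (y + t • v)| = 1 ∧ |(C.B p.1).tc p.2.2 (y + t • v)| = 1}.Finite := by
    rintro ⟨j, k, l⟩
    simp only [CBox.tc_add, map_smul, smul_eq_mul]
    by_cases hk : (C.B j).co k v = 0
    · by_cases hl : (C.B j).co l v = 0
      · apply Set.Subsingleton.finite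
        intro t ht s hs
        by_contra hne
        have h2 := (C.B j).sub_mem_V ht.1 hs.1
        have h3 : y + s • v - (y + t • v) = (s - t) • v := by rw [sub_smul]; abel
        rw [h3] at h2
        have h4 : v ∈ (C.B j).V := by
          have h5 := (C.B j).V.smul_mem (s - t)⁻¹ h2
          rwa [smul_smul, inv_mul_cancel₀ (sub_ne_zero.2 (Ne.symm hne)), one_smul] at h5
        exact hv j (CBox.ed_of_two ht.2.1 h4 hk hl)
      · exact (finite_abs_affine _ _ hl).subset fun t ht => ht.2.2.2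
    · exact (finite_abs_affine _ _ hk).subset fun t ht => ht.2.2.1
  refine (Set.finite_iUnion h1).subset ?_
  rintro t ⟨j, hj, k, l, hkl, hk, hl⟩
  exact mem_iUnion.2 ⟨(j, k, l), hj, hkl, hk, hl⟩

theorem tc_eq_of_mem {B : CBox} {Pl : Submodule ℝ E4} {l : Fin 3} (hF : B.F l = Pl) {x y : E4}
    (h : y - x ∈ Pl) : B.tc l y = B.tc l x := by
  rw [B.tc_sub_tc l x y, B.co_of_mem_F (hF ▸ h), add_zero]

omit [Finite ι] in
theorem onFace_of {j : ι} {x : E4} {l : Fin 3} (hx : x ∈ (C.B j).carrier)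
    (hl : |(C.B j).tc l x| = 1) (he : ¬ (C.B j).OnEdge x) : (C.B j).OnFace l x := by
  rcases (C.B j).trichotomy hx with h | ⟨k, h⟩ | h
  · have := h.2 l
    rw [hl] at this
    exact absurd this (lt_irrefl _)
  · have := h.unique _ hl
    subst this
    exact h
  · exact absurd h he

/-- one step along a generic line of a plane -/
theorem step {Pl : Submodule ℝ E4} {x₀ y v : E4} (hv : v ∈ Pl) (hvE : ∀ j, ¬ (C.B j).Ed v)
    (hy : y - x₀ ∈ Pl) {P Q : ι → Prop}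
    (hP : ∀ j, P j → ∃ l, (C.B j).F l = Pl ∧ |(C.B j).tc l x₀| = 1)
    (hPQ : ∀ j, (∃ l, (C.B j).F l = Pl ∧ |(C.B j).tc l x₀| = 1) → P j ∨ Q j)
    (hdis : ∀ j, P j → ¬ Q j)
    (h1 : ∃ j, P j ∧ y ∈ (C.B j).carrier)
    (h2 : ∀ j, P j → y ∈ (C.B j).carrier → ¬ (C.B j).OnEdge y)
    (h3 : ∃ j, Q j ∧ y ∈ (C.B j).carrier) :
    ∃ t : ℝ, 0 < t ∧ (∃ j, P j ∧ y + t • v ∈ (C.B j).carrier) ∧
      (∃ j, Q j ∧ y + t • v ∈ (C.B j).carrier) := by
  obtain ⟨j, hPj, hyj⟩ := h1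
  obtain ⟨l, hFl, hl⟩ := hP j hPj
  have hly : |(C.B j).tc l y| = 1 := by rw [tc_eq_of_mem hFl hy, hl]
  have hface : (C.B j).OnFace l y := C.onFace_of hyj hly (h2 j hPj hyj)
  obtain ⟨δ, hδ, -, -, hδ3⟩ := (C.B j).exists_rad y
  have hδ3 := hδ3 hyj
  obtain ⟨r, hr, hstar⟩ := C.exists_star_rad y
  have hv1 : 0 < ‖v‖ + 1 := by positivity
  have hmin : 0 < min δ r := lt_min hδ hr
  obtain ⟨t, ht0, ht1, htS⟩ := exists_small (δ := min δ r / (‖v‖ + 1)) (by positivity)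
    (C.finite_line_S y v hvE)
  have htS : ¬ C.S (y + t • v) := htS
  have hnorm : ‖t • v‖ < min δ r := by
    rw [norm_smul, Real.norm_of_nonneg ht0.le]
    rw [lt_div_iff₀ hv1] at ht1
    nlinarith [norm_nonneg v]
  have hvl : (C.B j).co l v = 0 := (C.B j).co_of_mem_F (hFl ▸ hv)
  have hin : y + t • v ∈ (C.B j).carrier := by
    apply (hδ3 _ (hnorm.trans_le (min_le_left _ _))).2
    refine ⟨(C.B j).V.smul_mem _ ((C.B j).F_le_V l (hFl ▸ hv)), fun m hm => ?_⟩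
    have := hface.unique _ hm
    subst this
    rw [map_smul, hvl]; simp
  have hlt : |(C.B j).tc l (y + t • v)| = 1 := by
    rw [(C.B j).tc_add, map_smul, hvl, smul_zero, add_zero, hly]
  have hface' : (C.B j).OnFace l (y + t • v) := C.onFace_of hin hlt fun h => htS ⟨j, h⟩
  obtain ⟨j', l', hj', hf', hF', -⟩ := C.exists_partner hface' htS
  have hFl' : (C.B j').F l' = Pl := hF'.symm.trans hFl
  have hty : y + t • v - x₀ ∈ Pl := by
    have : y + t • v - x₀ = (y - x₀) + t • v := by abel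
    rw [this]
    exact Pl.add_mem hy (Pl.smul_mem _ hv)
  have hl' : |(C.B j').tc l' x₀| = 1 := by
    rw [← tc_eq_of_mem hFl' hty]; exact hf'.2.1
  rcases hPQ j' ⟨l', hFl', hl'⟩ with h | h
  · exfalso
    have hyj' : y ∈ (C.B j').carrier := hstar j' (y + t • v) (by
      rw [dist_eq_norm, add_sub_cancel_left]
      exact hnorm.trans_le (min_le_right _ _)) hf'.1
    have hly' : |(C.B j').tc l' y| = 1 := by rw [tc_eq_of_mem hFl' hy, hl']
    have hface2 : (C.B j').OnFace l' y := C.onFace_of hyj' hly' (h2 j' h hyj')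
    obtain ⟨q, hQq, hyq⟩ := h3
    rcases C.star_two hj'.symm hface hface2 hF' hyq with rfl | rfl
    · exact hdis _ hPj hQq
    · exact hdis _ h hQq
  · exact ⟨t, ht0, ⟨j, hPj, hin⟩, ⟨j', h, hf'.1⟩⟩

/-- sign of a boolean -/
def sg (b : Bool) : ℝ := if b then 1 else -1

theorem exists_sg {r : ℝ} (h : |r| = 1) : ∃ b, r = sg b := by
  rcases eq_or_eq_neg_of_abs_eq h with h | h
  · exact ⟨true, by simpa [sg] using h⟩
  · exact ⟨false, by simpa [sg] using h⟩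

/-- **Alignment lemma.** -/
theorem align {i j : ι} {x₀ : E4} {k l : Fin 3} (hi : (C.B i).OnFace k x₀)
    (hj : (C.B j).OnFace l x₀) (hF : (C.B i).F k = (C.B j).F l) (hS : ¬ C.S x₀) :
    ∀ m, m ≠ k → (C.B j).Ed ((C.B i).v m) := by
  classical
  by_contra hcon
  set Pl := (C.B i).F k with hPl
  let HF : ι → Prop := fun j => ∃ l, (C.B j).F l = Pl ∧ |(C.B j).tc l x₀| = 1
  let A : ι → Prop := fun j => HF j ∧ ∀ m, m ≠ k → (C.B j).Ed ((C.B i).v m)
  let D : ι → Prop := fun j => HF j ∧ ¬ ∀ m, m ≠ k → (C.B j).Ed ((C.B i).v m)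
  have hAi : A i := ⟨⟨k, rfl, hi.2.1⟩, fun m _ => (C.B i).ed_v m⟩
  have hDj : D j := ⟨⟨l, hF.symm, hj.2.1⟩, hcon⟩
  -- boxes of `A` and `D` have no common direction in the plane
  have hAD : ∀ j₁ j₂ l₁ l₂, A j₁ → D j₂ → (C.B j₁).F l₁ = Pl → (C.B j₂).F l₂ = Pl →
      ∀ m, m ≠ l₁ → ¬ (C.B j₂).Ed ((C.B j₁).v m) := by
    intro j₁ j₂ l₁ l₂ h₁ h₂ hF₁ hF₂ m hm hE
    apply h₂.2
    intro n hn
    have h3 := CBox.aligned_of_one (hF₁.trans hF₂.symm) hm hE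
    exact CBox.Ed.trans h3 (hF₁ ▸ (C.B i).v_mem_F hn) (h₁.2 n hn)
  -- the linear conditions
  let hh : ι × Fin 3 × Bool × ι × Fin 3 × Bool → (E4 →L[ℝ] ℝ) := fun p =>
    (sg p.2.2.2.2.2 - (C.B p.2.2.2.1).tc p.2.2.2.2.1 x₀) • (C.B p.1).co p.2.1 -
    (sg p.2.2.1 - (C.B p.1).tc p.2.1 x₀) • (C.B p.2.2.2.1).co p.2.2.2.2.1
  let N : ({p : ι × Fin 3 × Bool × ι × Fin 3 × Bool //
      ¬ Pl ≤ LinearMap.ker (hh p : E4 →ₗ[ℝ] ℝ)} ⊕ (ι × Fin 3)) → Submodule ℝ E4 :=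
    fun p => Sum.elim (fun p => LinearMap.ker (hh p.1 : E4 →ₗ[ℝ] ℝ))
      (fun p => span ℝ {(C.B p.1).v p.2}) p
  obtain ⟨v, hvP, hvN⟩ := exists_avoid Pl N (by
    rintro (p | p)
    · exact p.2
    · exact (C.B i).not_le_span k _)
  have hvE : ∀ j, ¬ (C.B j).Ed v := by
    rintro j ⟨m, t, rfl⟩
    exact hvN (Sum.inr (j, m)) (Submodule.smul_mem _ _ (mem_span_singleton_self _))
  have hv0 : v ≠ 0 := by
    rintro rfl
    exact hvE i ⟨0, 0, by simp⟩
  have hline : ∀ t : ℝ, x₀ + t • v - x₀ ∈ Pl := by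
    intro t
    rw [add_sub_cancel_left]
    exact Pl.smul_mem _ hvP
  -- no crossing of edges on the line
  have hcross : ∀ t : ℝ, ∀ j₁ j₂, A j₁ → D j₂ → (C.B j₁).OnEdge (x₀ + t • v) →
      ¬ (C.B j₂).OnEdge (x₀ + t • v) := by
    intro t j₁ j₂ hA hD he₁ he₂
    obtain ⟨l₁, hF₁, hl₁⟩ := hA.1
    obtain ⟨l₂, hF₂, hl₂⟩ := hD.1
    have hex : ∀ (B : CBox) (l : Fin 3), B.OnEdge (x₀ + t • v) →
        ∃ m, m ≠ l ∧ |B.tc m (x₀ + t • v)| = 1 := by
      rintro B l ⟨-, a, b, hab, ha, hb⟩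
      by_cases h : a = l
      · exact ⟨b, fun h' => hab (h.trans h'.symm), hb⟩
      · exact ⟨a, h, ha⟩
    obtain ⟨m₁, hm₁, hm₁'⟩ := hex _ l₁ he₁
    obtain ⟨m₂, hm₂, hm₂'⟩ := hex _ l₂ he₂
    obtain ⟨b₁, hb₁⟩ := exists_sg hm₁'
    obtain ⟨b₂, hb₂⟩ := exists_sg hm₂'
    by_cases ht : t = 0
    · subst ht
      rw [zero_smul, add_zero] at he₁
      exact hS ⟨j₁, he₁⟩
    rw [CBox.tc_add, map_smul, smul_eq_mul] at hb₁ hb₂
    set α := (C.B j₁).tc m₁ x₀ with hα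
    set β := (C.B j₂).tc m₂ x₀ with hβ
    by_cases hz : sg b₁ - α = 0 ∧ sg b₂ - β = 0
    · have h1 : t * (C.B j₁).co m₁ v = 0 := by linarith [hz.1]
      have h2 := (mul_eq_zero.1 h1).resolve_left ht
      exact hvE j₁ (CBox.ed_of_face hm₁ (hF₁.symm ▸ hvP) h2)
    · let p : ι × Fin 3 × Bool × ι × Fin 3 × Bool := (j₁, m₁, b₁, j₂, m₂, b₂)
      have hp : ¬ Pl ≤ LinearMap.ker (hh p : E4 →ₗ[ℝ] ℝ) := by
        intro hle
        have hker : ∀ u ∈ Pl, (sg b₂ - β) * (C.B j₁).co m₁ u -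
            (sg b₁ - α) * (C.B j₂).co m₂ u = 0 := fun u hu => hle hu
        by_cases hz2 : sg b₂ - β = 0
        · have hz1 : sg b₁ - α ≠ 0 := fun h => hz ⟨h, hz2⟩
          obtain ⟨n, hn, hn'⟩ := exists_third l₁ m₁
          have hu : (C.B j₁).v n ∈ Pl := hF₁ ▸ (C.B j₁).v_mem_F hn
          have h1 := hker _ hu
          rw [(C.B j₁).co_ne hn'.symm, mul_zero, zero_sub, neg_eq_zero] at h1
          have h2 := (mul_eq_zero.1 h1).resolve_left hz1
          exact hAD j₁ j₂ l₁ l₂ hA hD hF₁ hF₂ n hn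
            (CBox.ed_of_face hm₂ (hF₂.symm ▸ hu) h2)
        · obtain ⟨n, hn, hn'⟩ := exists_third l₂ m₂
          have hu : (C.B j₂).v n ∈ Pl := hF₂ ▸ (C.B j₂).v_mem_F hn
          have h1 := hker _ hu
          rw [(C.B j₂).co_ne hn'.symm, mul_zero, sub_zero] at h1
          have h2 := (mul_eq_zero.1 h1).resolve_left hz2
          have hE : (C.B j₁).Ed ((C.B j₂).v n) := CBox.ed_of_face hm₁ (hF₁.symm ▸ hu) h2
          have hE2 := CBox.aligned_symm (hF₂.trans hF₁.symm)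
            (CBox.aligned_of_one (hF₂.trans hF₁.symm) hn hE)
          obtain ⟨n', hn', -⟩ := exists_third l₁ l₁
          exact hAD j₁ j₂ l₁ l₂ hA hD hF₁ hF₂ n' hn' (hE2 n' hn')
      apply hvN (Sum.inl ⟨p, hp⟩)
      change (sg b₂ - β) * (C.B j₁).co m₁ v - (sg b₁ - α) * (C.B j₂).co m₂ v = 0
      have h3 : t * ((sg b₂ - β) * (C.B j₁).co m₁ v - (sg b₁ - α) * (C.B j₂).co m₂ v) = 0 := by
        have e1 : sg b₁ - α = t * (C.B j₁).co m₁ v := by linarith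
        have e2 : sg b₂ - β = t * (C.B j₂).co m₂ v := by linarith
        rw [e1, e2]; ring
      exact (mul_eq_zero.1 h3).resolve_left ht
  -- the extremal parameter
  let TT : (ι → Prop) → Set ℝ := fun P => ⋃ j : {j // P j}, {t : ℝ | x₀ + t • v ∈ (C.B j.1).carrier}
  have hTT : ∀ P, IsClosed (TT P) := by
    intro P
    apply isClosed_iUnion_of_finite
    intro j
    exact (C.B j.1).isClosed_carrier.preimage
      (continuous_const.add (continuous_id.smul continuous_const))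
  have hmemTT : ∀ P t, t ∈ TT P ↔ ∃ j, P j ∧ x₀ + t • v ∈ (C.B j).carrier := by
    intro P t
    simp only [TT, mem_iUnion, mem_ofPred_eq, Subtype.exists, exists_prop]
  have hbdd : ∃ R, ∀ t ∈ TT A, t ≤ R := by
    have hc : IsCompact (⋃ j, (C.B j).carrier) :=
      isCompact_iUnion fun j => (C.B j).isCompact_carrier
    obtain ⟨R, hR⟩ := hc.isBounded.exists_norm_le
    refine ⟨(R + ‖x₀‖) / ‖v‖, fun t ht => ?_⟩
    obtain ⟨j, -, hjt⟩ := (hmemTT A t).1 ht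
    have h1 := hR _ (mem_iUnion.2 ⟨j, hjt⟩)
    rw [le_div_iff₀ (norm_pos_iff.2 hv0)]
    have h2 : t • v = (x₀ + t • v) - x₀ := by abel
    have h3 : ‖t • v‖ ≤ R + ‖x₀‖ := by
      rw [h2]
      exact (norm_sub_le _ _).trans (by linarith)
    rw [norm_smul] at h3
    exact (mul_le_mul_of_nonneg_right (le_abs_self t) (norm_nonneg v)).trans h3
  obtain ⟨R, hR⟩ := hbdd
  have hcpt : IsCompact (Icc 0 R ∩ (TT A ∩ TT D)) :=
    isCompact_Icc.inter_right ((hTT A).inter (hTT D))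
  have h0 : (0 : ℝ) ∈ Icc 0 R ∩ (TT A ∩ TT D) := by
    have h1 : (0 : ℝ) ∈ TT A := (hmemTT A 0).2 ⟨i, hAi, by simpa using hi.1⟩
    have h2 : (0 : ℝ) ∈ TT D := (hmemTT D 0).2 ⟨j, hDj, by simpa using hj.1⟩
    exact ⟨⟨le_rfl, hR 0 h1⟩, h1, h2⟩
  obtain ⟨T, ⟨⟨hT0, hTR⟩, hTA, hTD⟩, hmax⟩ := hcpt.exists_isGreatest ⟨0, h0⟩
  rw [hmemTT] at hTA hTD
  have hdis : ∀ j, A j → ¬ D j := fun j h h' => h'.2 h.2
  have hfin : ∀ t : ℝ, 0 < t → (∃ j, A j ∧ x₀ + T • v + t • v ∈ (C.B j).carrier) →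
      ¬ (∃ j, D j ∧ x₀ + T • v + t • v ∈ (C.B j).carrier) := by
    intro t ht h1 h2
    have e : x₀ + T • v + t • v = x₀ + (T + t) • v := by rw [add_smul, add_assoc]
    rw [e] at h1 h2
    have h3 := (hmemTT A _).2 h1
    have h4 := (hmemTT D _).2 h2
    have h5 := hmax ⟨⟨by linarith, hR _ h3⟩, h3, h4⟩
    linarith
  by_cases hcase : ∀ j, A j → x₀ + T • v ∈ (C.B j).carrier → ¬ (C.B j).OnEdge (x₀ + T • v)
  · obtain ⟨t, ht, h1, h2⟩ := C.step hvP hvE (hline T) (P := A) (Q := D) (fun j h => h.1)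
      (fun j h => by
        by_cases hA : ∀ m, m ≠ k → (C.B j).Ed ((C.B i).v m)
        · exact Or.inl ⟨h, hA⟩
        · exact Or.inr ⟨h, hA⟩) hdis hTA hcase hTD
    exact hfin t ht h1 h2
  · push Not at hcase
    obtain ⟨j₁, hj₁, -, he₁⟩ := hcase
    obtain ⟨t, ht, h1, h2⟩ := C.step hvP hvE (hline T) (P := D) (Q := A) (fun j h => h.1)
      (fun j h => by
        by_cases hA : ∀ m, m ≠ k → (C.B j).Ed ((C.B i).v m)
        · exact Or.inr ⟨h, hA⟩
        · exact Or.inl ⟨h, hA⟩) (fun j h h' => hdis j h' h) hTD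
      (fun j hj _ => hcross T j₁ j hj₁ hj he₁) hTA
    exact hfin t ht h2 h1

end Config

end Pool.Agent.Lib.MP_d9a4ca_co
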