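import Mathlib

/-!
Local data for a developing map on a simply connected space integrate to a global map.
-/

set_option autoImplicit false

open Topology Filter Set

namespace Pool.Agent.Lib.MP_d9a4ca_co

variable {M G : Type*} [TopologicalSpace M] [Group G]

/-- local data for a developing map with values in the group `G` -/
structure DevData (M G : Type*) [TopologicalSpace M] [Group G] where
  /-- the neighbourhood of a point -/
  U : M → Set M
  isOpen_U : ∀ x, IsOpen (U x)
  mem_U : ∀ x, x ∈ U x
  /-- the displacement from `x` to a point of `U x` -/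
  σ : M → M → G
  σ_comp : ∀ x y, y ∈ U x → ∀ᶠ z in 𝓝 y, σ x z = σ x y * σ y z

namespace DevData

variable (D : DevData M G)

theorem σ_self (x : M) : D.σ x x = 1 := by
  have h := (D.σ_comp x x (D.mem_U x)).self_of_nhds
  exact left_eq_mul.1 h

/-- the bundle -/
def core [TopologicalSpace G] [DiscreteTopology G] : FiberBundleCore M M G where
  baseSet := D.U
  isOpen_baseSet := D.isOpen_U
  indexAt := id
  mem_baseSet_at := D.mem_U
  coordChange x x' y g := g * D.σ x y * (D.σ x' y)⁻¹
  coordChange_self x y _ g := by simp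
  continuousOn_coordChange x x' := by
    rintro ⟨y, g⟩ hy
    have h1 := D.σ_comp x y hy.1.1
    have h2 := D.σ_comp x' y hy.1.2
    have h3 : (fun p : M × G => p.2 * D.σ x p.1 * (D.σ x' p.1)⁻¹) =ᶠ[𝓝 (y, g)]
        fun p : M × G => p.2 * (D.σ x y * (D.σ x' y)⁻¹) := by
      filter_upwards [(h1.and h2).prod_inl_nhds g] with p hp
      rw [hp.1, hp.2]
      group
    refine (ContinuousAt.congr ?_ h3.symm).continuousWithinAt
    exact (continuous_of_discreteTopology (f := fun g : G => g * (D.σ x y * (D.σ x' y)⁻¹))).comp
      continuous_snd |>.continuousAt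
  coordChange_comp x x' x'' y _ g := by group

/-- **Integration of local developing data** on a simply connected space. -/
theorem exists_dev [SimplyConnectedSpace M] [LocallyPathConnectedSpace M] :
    ∃ dev : M → G, ∀ x, ∀ᶠ y in 𝓝 x, dev y = dev x * D.σ x y := by
  let _ : TopologicalSpace G := ⊥
  have : DiscreteTopology G := ⟨rfl⟩
  have cov : IsCoveringMap (Bundle.TotalSpace.proj : D.core.TotalSpace → M) :=
    FiberBundle.isCoveringMap
  obtain ⟨a⟩ : Nonempty M := inferInstance
  obtain ⟨F, ⟨-, hF⟩, -⟩ := cov.existsUnique_continuousMap_lifts (ContinuousMap.id M) a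
    (⟨a, (1 : G)⟩ : D.core.TotalSpace) rfl
  have hF1 : ∀ x, (F x).1 = x := fun x => congrFun hF x
  let dev : M → G := fun x => (F x).2
  refine ⟨dev, fun x => ?_⟩
  have hc : ContinuousAt (fun y => (D.core.localTriv x (F y)).2) x := by
    have h1 : ContinuousAt (D.core.localTriv x) (F x) := by
      apply (D.core.localTriv x).continuousAt
      rw [Bundle.Trivialization.mem_source]
      change (F x).1 ∈ D.U x
      rw [hF1]
      exact D.mem_U x
    exact continuousAt_snd.comp (ContinuousAt.comp (f := F) h1 F.continuous.continuousAt)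
  have h2 : ∀ y, (D.core.localTriv x (F y)).2 = dev y * (D.σ x y)⁻¹ := by
    intro y
    have : (D.core.localTriv x (F y)).2 = dev y * D.σ (F y).1 (F y).1 * (D.σ x (F y).1)⁻¹ := rfl
    rw [this, D.σ_self, mul_one, hF1]
  have h3 : ∀ᶠ y in 𝓝 x, (D.core.localTriv x (F y)).2 = (D.core.localTriv x (F x)).2 :=
    hc.eventually (f := fun y => (D.core.localTriv x (F y)).2)
      ((mem_nhds_discrete (s := {z | z = (D.core.localTriv x (F x)).2})).2 rfl)
  filter_upwards [h3] with y hy
  rw [h2, h2, D.σ_self, inv_one, mul_one] at hy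
  exact mul_inv_eq_iff_eq_mul.1 hy

end DevData

end Pool.Agent.Lib.MP_d9a4ca_co
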