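import Mathlib
import Pool.Agent.Lib.MP_d9a4ca_co.Align

/-!
Local consistency of the edge directions, also at edges and vertices.
-/

set_option autoImplicit false

open Topology Filter Set Metric Submodule
open scoped RealInnerProductSpace

namespace Pool.Agent.Lib.MP_d9a4ca_co

namespace Config

variable {ι : Type*} [Finite ι] (C : Config ι)

/-- a vector of the plane not parallel to any edge -/
theorem exists_generic (B : CBox) (l : Fin 3) : ∃ v ∈ B.F l, ∀ j, ¬ (C.B j).Ed v := by
  obtain ⟨v, hv, hvN⟩ := exists_avoid (ι := ι × Fin 3) (B.F l)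
    (fun p => span ℝ {(C.B p.1).v p.2}) (fun p => B.not_le_span l _)
  refine ⟨v, hv, ?_⟩
  rintro j ⟨m, t, rfl⟩
  exact hvN (j, m) (Submodule.smul_mem _ _ (mem_span_singleton_self _))

/-- every point in the relative interior of a face has a partner box, aligned with it -/
theorem near_partner {j : ι} {l : Fin 3} {y : E4} (h : (C.B j).OnFace l y) :
    ∃ j' l', j' ≠ j ∧ y ∈ (C.B j').carrier ∧ (C.B j).F l = (C.B j').F l' ∧
      |(C.B j').tc l' y| = 1 ∧ ∀ m, m ≠ l → (C.B j').Ed ((C.B j).v m) := by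
  obtain ⟨v, hv, hvE⟩ := C.exists_generic (C.B j) l
  obtain ⟨δ, hδ, -, -, hδ3⟩ := (C.B j).exists_rad y
  have hδ3 := hδ3 h.1
  obtain ⟨r, hr, hstar⟩ := C.exists_star_rad y
  have hv1 : 0 < ‖v‖ + 1 := by positivity
  have hmin : 0 < min δ r := lt_min hδ hr
  obtain ⟨t, ht0, ht1, htS⟩ := exists_small (δ := min δ r / (‖v‖ + 1)) (by positivity)
    (C.finite_line_S y v hvE)
  have htS : ¬ C.S (y + t • v) := htS
  have hnorm : ‖t • v‖ < min δ r := by
    rw [norm_smul, Real.norm_of_nonneg ht0.le]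
    rw [lt_div_iff₀ hv1] at ht1
    nlinarith [norm_nonneg v]
  have hvl : (C.B j).co l v = 0 := (C.B j).co_of_mem_F hv
  have hin : y + t • v ∈ (C.B j).carrier := by
    apply (hδ3 _ (hnorm.trans_le (min_le_left _ _))).2
    refine ⟨(C.B j).V.smul_mem _ ((C.B j).F_le_V l hv), fun m hm => ?_⟩
    have := h.unique _ hm
    subst this
    rw [map_smul, hvl]; simp
  have hlt : |(C.B j).tc l (y + t • v)| = 1 := by
    rw [(C.B j).tc_add, map_smul, hvl, smul_zero, add_zero, h.2.1]
  have hface' : (C.B j).OnFace l (y + t • v) := C.onFace_of hin hlt fun h => htS ⟨j, h⟩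
  obtain ⟨j', l', hj', hf', hF', -⟩ := C.exists_partner hface' htS
  refine ⟨j', l', hj', ?_, hF', ?_, C.align hface' hf' hF' htS⟩
  · exact hstar j' (y + t • v) (by
      rw [dist_eq_norm, add_sub_cancel_left]
      exact hnorm.trans_le (min_le_right _ _)) hf'.1
  · have := hf'.2.1
    rwa [(C.B j').tc_add, map_smul, (C.B j').co_of_mem_F (hF' ▸ hv), smul_zero, add_zero] at this

/-- **Edge lemma.** -/
theorem edge_lemma {x e : E4}
    (hline : ∀ j, x ∈ (C.B j).carrier → x + e ∈ (C.B j).carrier ∧ x - e ∈ (C.B j).carrier)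
    {i : ι} (hi : x ∈ (C.B i).carrier) (he : (C.B i).Ed e) {j : ι} (hj : x ∈ (C.B j).carrier) :
    (C.B j).Ed e := by
  by_contra hcon
  have key : ∀ j, x ∈ (C.B j).carrier → ¬ (C.B j).Ed e → ∃ l, (C.B j).OnFace l x ∧
      e ∈ (C.B j).F l := by
    intro j hj hcon
    have heV : e ∈ (C.B j).V := (C.B j).mem_V_of_add hj (hline j hj).1
    have hco : ∀ k, |(C.B j).tc k x| = 1 → (C.B j).co k e = 0 := by
      intro k hk
      have h1 := (hline j hj).1.2 k
      have h2 := (hline j hj).2.2 k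
      rw [sub_eq_add_neg, (C.B j).tc_add, map_neg] at h2
      rw [(C.B j).tc_add] at h1
      have h3 := abs_le.1 h1
      have h4 := abs_le.1 h2
      rcases eq_or_eq_neg_of_abs_eq hk with h | h
      · rw [h] at h3 h4; linarith [h3.1, h3.2, h4.1, h4.2]
      · rw [h] at h3 h4; linarith [h3.1, h3.2, h4.1, h4.2]
    rcases (C.B j).trichotomy hj with h | ⟨l, h⟩ | h
    · have := C.relint_unique h hi
      subst this
      exact absurd he hcon
    · exact ⟨l, h, (C.B j).mem_F_iff.2 ⟨heV, hco l h.2.1⟩⟩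
    · obtain ⟨-, k, l, hkl, hk, hl⟩ := h
      exact absurd (CBox.ed_of_two hkl heV (hco k hk) (hco l hl)) hcon
  obtain ⟨l, hl, hel⟩ := key j hj hcon
  obtain ⟨j', l', hj', hxj', hF', htc', hE'⟩ := C.near_partner hl
  have hcon' : ¬ (C.B j').Ed e := by
    intro h
    exact hcon (CBox.Ed.trans (CBox.aligned_symm hF' hE') (hF' ▸ hel) h)
  obtain ⟨l'', hl'', -⟩ := key j' hxj' hcon'
  have := hl''.unique _ htc'
  subst this
  rcases C.star_two hj'.symm hl hl'' hF' hi with rfl | rfl
  · exact hcon he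
  · exact hcon' he

omit [Finite ι] in
/-- the intersection of two boxes with a generic point lies in the plane -/
theorem sub_mem_face {i j : ι} (hij : i ≠ j) {k : Fin 3} {x y : E4} (hy : (C.B i).OnFace k y)
    (hyj : y ∈ (C.B j).carrier) (hxi : x ∈ (C.B i).carrier) (hxj : x ∈ (C.B j).carrier) :
    x - y ∈ (C.B i).F k := by
  have hV := (C.B i).sub_mem_V hy.1 hxi
  refine (C.B i).mem_F_iff.2 ⟨hV, ?_⟩
  by_contra hne
  have hmid : y + (1/2 : ℝ) • (x - y) ∈ (C.B i).relint := by
    refine ⟨(C.B i).add_sub_c_mem hy.1 ((C.B i).V.smul_mem _ hV), fun l => ?_⟩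
    have hx := (C.B i).tc_sub_tc l y x
    have hxl := abs_le.1 (hxi.2 l)
    rw [(C.B i).tc_add, map_smul, smul_eq_mul]
    by_cases hl : l = k
    · subst hl
      rcases eq_or_eq_neg_of_abs_eq hy.2.1 with h | h
      · rw [h] at hx ⊢
        have : (C.B i).co l (x - y) < 0 := lt_of_le_of_ne (by linarith [hxl.2]) hne
        rw [abs_lt]; constructor <;> linarith [hxl.1, hxl.2]
      · rw [h] at hx ⊢
        have : 0 < (C.B i).co l (x - y) := lt_of_le_of_ne (by linarith [hxl.1]) (Ne.symm hne)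
        rw [abs_lt]; constructor <;> linarith [hxl.1, hxl.2]
    · have h1 := abs_lt.1 (hy.2.2 l hl)
      rw [abs_lt]; constructor <;> linarith [hxl.1, hxl.2, h1.1, h1.2]
  have hmid' : y + (1/2 : ℝ) • (x - y) ∈ (C.B j).carrier := by
    have := (C.B j).convex_carrier hyj hxj (a := 1/2) (b := 1/2) (by norm_num) (by norm_num)
      (by norm_num)
    convert this using 1
    module
  exact hij (C.relint_unique hmid hmid')

end Config

namespace CBox

variable (B : CBox)

theorem decomp_F {k m n : Fin 3} (hm : m ≠ k) (hn : n ≠ k) (hmn : m ≠ n) {z : E4}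
    (hz : z ∈ B.F k) : z = B.co m z • B.v m + B.co n z • B.v n := by
  have h1 := B.mem_V_iff.1 (B.F_le_V k hz)
  have h2 := B.co_of_mem_F hz
  conv_lhs => rw [← h1]
  have h3 : (Finset.univ : Finset (Fin 3)) = {k, m, n} := by
    revert hm hn hmn; fin_cases k <;> fin_cases m <;> fin_cases n <;> decide
  rw [h3, Finset.sum_insert (by simp [hm.symm, hn.symm]), Finset.sum_pair hmn, h2, zero_smul,
    zero_add]

end CBox

namespace Config

variable {ι : Type*} [Finite ι] (C : Config ι)

/-- a vector which is a sum of two vectors parallel to edges of both boxes -/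
def Good (i j : ι) (z : E4) : Prop := ∃ z₁ z₂ : E4, z = z₁ + z₂ ∧ (C.B i).Ed z₁ ∧ (C.B j).Ed z₁ ∧
  (C.B i).Ed z₂ ∧ (C.B j).Ed z₂

/-- **Local consistency.** -/
theorem local_consistency (x : E4) : ∃ δ > 0, ∀ x' : E4, dist x' x < δ → ∀ i j,
    x' ∈ (C.B i).carrier → x' ∈ (C.B j).carrier → x ∈ (C.B i).carrier ∧
      (i = j ∨ C.Good i j (x' - x)) := by
  classical
  have := Fintype.ofFinite ι
  obtain ⟨r, hr, hstar⟩ := C.exists_star_rad x
  choose δ hδ hδ1 hδ2 hδ3 using fun i => (C.B i).exists_rad x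
  obtain ⟨d, hd, hdδ⟩ : ∃ d > 0, ∀ i, d ≤ δ i := by
    rcases isEmpty_or_nonempty ι with h | h
    · exact ⟨1, one_pos, fun i => (h.false i).elim⟩
    · refine ⟨Finset.univ.inf' Finset.univ_nonempty δ, ?_, fun i => Finset.inf'_le _ (Finset.mem_univ i)⟩
      rw [gt_iff_lt, Finset.lt_inf'_iff]
      exact fun i _ => hδ i
  refine ⟨min r (d / 2), lt_min hr (by linarith), fun x' hx' i j hi hj => ?_⟩
  have hxr : dist x' x < r := hx'.trans_le (min_le_left _ _)
  have hxd : ‖x' - x‖ < d / 2 := by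
    rw [← dist_eq_norm]; exact hx'.trans_le (min_le_right _ _)
  have hx : ∀ j, x' ∈ (C.B j).carrier → x ∈ (C.B j).carrier := fun j => hstar j x' hxr
  refine ⟨hx i hi, ?_⟩
  by_cases hij : i = j
  · exact Or.inl hij
  right
  have e0 : x + (x' - x) = x' := by abel
  by_cases hS : C.S x'
  · by_cases hxx : x' = x
    · exact ⟨0, 0, by simp [hxx], ⟨0, 0, by simp⟩, ⟨0, 0, by simp⟩, ⟨0, 0, by simp⟩, ⟨0, 0, by simp⟩⟩
    obtain ⟨i₀, hi₀, k, l, hkl, hk, hl⟩ := hS
    have hzero : ∀ m, |(C.B i₀).tc m x'| = 1 → (C.B i₀).co m (x' - x) = 0 := by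
      intro m hm
      have h1 : |(C.B i₀).tc m x| = 1 := by
        by_contra hne
        have h2 := lt_of_le_of_ne ((hx i₀ hi₀).2 m) hne
        have h3 := hδ2 i₀ m (x' - x) (by linarith [hdδ i₀]) h2
        rw [e0, hm] at h3
        exact lt_irrefl _ h3
      have h2 := abs_lt.1 (hδ1 i₀ m (x' - x) (by linarith [hdδ i₀]))
      have h3 := (C.B i₀).tc_sub_tc m x x'
      rcases eq_or_eq_neg_of_abs_eq h1 with h4 | h4 <;>
        rcases eq_or_eq_neg_of_abs_eq hm with h5 | h5 <;> rw [h4, h5] at h3 <;>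
        linarith [h2.1, h2.2]
    have hz : (C.B i₀).Ed (x' - x) := CBox.ed_of_two hkl ((C.B i₀).sub_mem_V (hx i₀ hi₀) hi₀)
      (hzero k hk) (hzero l hl)
    have hline : ∀ j, x' ∈ (C.B j).carrier → x' + (x' - x) ∈ (C.B j).carrier ∧
        x' - (x' - x) ∈ (C.B j).carrier := by
      intro j hj
      constructor
      · have h1 : x' - x ∈ (C.B j).cone x := by
          apply (hδ3 j (hx j hj) (x' - x) (by linarith [hdδ j])).1
          rw [e0]; exact hj
        have h2 := (C.B j).cone_smul h1 (t := 2) (by norm_num)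
        have h3 := (hδ3 j (hx j hj) ((2 : ℝ) • (x' - x)) (by
          rw [norm_smul]; norm_num; linarith [hdδ j])).2 h2
        have e : x' + (x' - x) = x + (2 : ℝ) • (x' - x) := by module
        rw [e]; exact h3
      · have : x' - (x' - x) = x := by abel
        rw [this]; exact hx j hj
    exact ⟨x' - x, 0, by simp, C.edge_lemma hline hi₀ hz hi, C.edge_lemma hline hi₀ hz hj,
      ⟨0, 0, by simp⟩, ⟨0, 0, by simp⟩⟩
  · obtain ⟨k, hk⟩ := C.OnFace_of_two hij hS hi hj
    obtain ⟨j', l, hj', hl, hF, hst⟩ := C.exists_partner hk hS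
    have hjj : j = j' := by
      rcases hst j hj with h | h
      · exact absurd h.symm hij
      · exact h
    subst hjj
    have hal := C.align hk hl hF hS
    have h1 : x' - x ∈ (C.B i).F k := by
      have := C.sub_mem_face hij hk hj (hx i hi) (hx j hj)
      rw [← neg_sub]
      exact neg_mem this
    obtain ⟨m, hm, -⟩ := exists_third k k
    obtain ⟨n, hn, hnm⟩ := exists_third k m
    refine ⟨(C.B i).co m (x' - x) • (C.B i).v m, (C.B i).co n (x' - x) • (C.B i).v n,
      (C.B i).decomp_F hm hn hnm.symm h1, ?_, ?_, ?_, ?_⟩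
    · exact CBox.Ed.smul _ ((C.B i).ed_v m) _
    · exact CBox.Ed.smul _ (hal m hm) _
    · exact CBox.Ed.smul _ ((C.B i).ed_v n) _
    · exact CBox.Ed.smul _ (hal n hn) _

end Config

end Pool.Agent.Lib.MP_d9a4ca_co
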