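import Mathlib
import Pool.Agent.Lib.MP_d9a4ca_co.Edge
import Pool.Agent.Lib.MP_d9a4ca_co.Cover

/-!
Developing maps on a simply connected union of boxes.
-/

set_option autoImplicit false

open Topology Filter Set Metric Submodule
open scoped RealInnerProductSpace

namespace Pool.Agent.Lib.MP_d9a4ca_co

namespace Config

variable {ι : Type*} [Finite ι] (C : Config ι)

/-- compatible displacement homomorphisms -/
structure Disp (G : Type*) [Group G] where
  W : ι → E4 → G
  add : ∀ i z z', W i (z + z') = W i z * W i z'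
  compat : ∀ i j z, (C.B i).Ed z → (C.B j).Ed z → W i z = W j z

variable {C}

omit [Finite ι] in
theorem Disp.good {G : Type*} [Group G] (D : C.Disp G) {i j : ι} {z : E4}
    (h : i = j ∨ C.Good i j z) : D.W i z = D.W j z := by
  rcases h with rfl | ⟨z₁, z₂, rfl, h1, h2, h3, h4⟩
  · rfl
  · rw [D.add, D.add, D.compat i j z₁ h1 h2, D.compat i j z₂ h3 h4]

/-- **Existence of the developing map.** -/
theorem Disp.exists_dev {G : Type*} [Group G] (D : C.Disp G) [SimplyConnectedSpace C.M] :
    ∃ dev : E4 → G, ∀ i, ∀ x ∈ (C.B i).carrier, ∀ y ∈ (C.B i).carrier,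
      dev y = dev x * D.W i (y - x) := by
  classical
  choose δ hδ hLC using C.local_consistency
  choose ch hch using fun y : C.M => C.mem_M.1 y.2
  let σ : C.M → C.M → G := fun x y => D.W (ch y) ((y : E4) - x)
  have hσ : ∀ x y : C.M, dist y x < δ x → ∀ i, (y : E4) ∈ (C.B i).carrier →
      σ x y = D.W i ((y : E4) - x) := by
    intro x y hd i hi
    exact D.good (hLC x y hd (ch y) i (hch y) hi).2
  let DD : DevData C.M G :=
    { U := fun x => {y | dist y x < δ x}
      isOpen_U := fun x => isOpen_lt (continuous_id.dist continuous_const) continuous_const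
      mem_U := fun x => by
        change dist x x < δ x
        rw [dist_self]; exact hδ x
      σ := σ
      σ_comp := by
        intro x y hy
        have hy : dist y x < δ x := hy
        have h1 : ∀ᶠ z : C.M in 𝓝 y, dist z x < δ x :=
          (isOpen_lt (continuous_id.dist continuous_const) continuous_const).mem_nhds hy
        have h2 : ∀ᶠ z : C.M in 𝓝 y, dist z y < δ y := by
          apply (isOpen_lt (continuous_id.dist continuous_const) continuous_const).mem_nhds
          change dist y y < δ y
          rw [dist_self]; exact hδ y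
        filter_upwards [h1, h2] with z hz1 hz2
        have hyz := (hLC y z hz2 (ch z) (ch z) (hch z) (hch z)).1
        rw [hσ x y hy (ch z) hyz]
        change D.W (ch z) ((z : E4) - x) = D.W (ch z) ((y : E4) - x) * D.W (ch z) ((z : E4) - y)
        rw [← D.add]
        congr 1
        abel }
  have hlpc : LocallyPathConnectedSpace C.M := LocR3.locallyPathConnected C.loc
  obtain ⟨dev, hdev⟩ := DD.exists_dev
  let dev' : E4 → G := fun x => if h : x ∈ C.M then dev ⟨x, h⟩ else 1
  have hdev' : ∀ x : C.M, dev' x = dev x := fun x => by simp [dev']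
  refine ⟨dev', fun i => ?_⟩
  have hcarr : ∀ x ∈ (C.B i).carrier, x ∈ C.M := fun x hx => C.mem_M.2 ⟨i, hx⟩
  have : PreconnectedSpace (C.B i).carrier :=
    isPreconnected_iff_preconnectedSpace.1 (C.B i).convex_carrier.isPreconnected
  let f : (C.B i).carrier → G := fun x => dev' x * (D.W i ((x : E4) - (C.B i).c))⁻¹
  have hf : IsLocallyConstant f := by
    rw [IsLocallyConstant.iff_eventually_eq]
    intro x
    have h1 := hdev ⟨x, hcarr x x.2⟩
    have hcont : Continuous (fun y : (C.B i).carrier => (⟨y, hcarr y y.2⟩ : C.M)) :=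
      continuous_subtype_val.subtype_mk _
    have h2 := (hcont.continuousAt (x := x)).eventually h1
    have h3 : ∀ᶠ y : (C.B i).carrier in 𝓝 x, dist (y : E4) x < δ x := by
      apply (isOpen_lt (continuous_subtype_val.dist continuous_const) continuous_const).mem_nhds
      change dist (x : E4) x < δ x
      rw [dist_self]; exact hδ x
    filter_upwards [h2, h3] with y hy1 hy2
    have h4 : dev' y = dev' x * D.W i ((y : E4) - x) := by
      rw [hdev' ⟨y, hcarr y y.2⟩, hdev' ⟨x, hcarr x x.2⟩, hy1]
      congr 1
      exact hσ ⟨x, hcarr x x.2⟩ ⟨y, hcarr y y.2⟩ hy2 i y.2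
    change dev' y * (D.W i ((y : E4) - (C.B i).c))⁻¹ = dev' x * (D.W i ((x : E4) - (C.B i).c))⁻¹
    have h5 : D.W i ((y : E4) - (C.B i).c) =
        D.W i ((x : E4) - (C.B i).c) * D.W i ((y : E4) - x) := by
      rw [← D.add]; congr 1; abel
    rw [h4, h5]
    group
  intro x hx y hy
  have h1 := hf.apply_eq_of_preconnectedSpace ⟨y, hy⟩ ⟨x, hx⟩
  change dev' y * (D.W i (y - (C.B i).c))⁻¹ = dev' x * (D.W i (x - (C.B i).c))⁻¹ at h1
  have h6 : D.W i (y - (C.B i).c) = D.W i (x - (C.B i).c) * D.W i (y - x) := by
    rw [← D.add]; congr 1; abel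
  rw [mul_inv_eq_iff_eq_mul, h6] at h1
  rw [h1]
  group

end Config

end Pool.Agent.Lib.MP_d9a4ca_co
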