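import Mathlib

/-!
A word of a free product of copies of an additive group whose product is trivial has a
nonempty run (contiguous piece with constant index) of sum zero.
-/

set_option autoImplicit false

open Monoid

namespace Pool.Agent.Lib.MP_d9a4ca_co

variable {ι V : Type*} [AddCommGroup V]

/-- the free product of copies of `V` indexed by `ι` -/
abbrev FP (ι V : Type*) [AddCommGroup V] : Type _ := CoprodI fun _ : ι => Multiplicative V

/-- the element of the free product given by an index and a vector -/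
def FP.el (φ : ι) (v : V) : FP ι V :=
  CoprodI.of (M := fun _ : ι => Multiplicative V) (i := φ) (Multiplicative.ofAdd v)

theorem FP.el_add (φ : ι) (v w : V) : FP.el φ (v + w) = FP.el φ v * FP.el φ w := by
  simp [FP.el, ofAdd_add]

theorem FP.el_zero (φ : ι) : FP.el φ (0 : V) = 1 := by
  simp [FP.el]

/-- the product of a word -/
def wprod (l : List (ι × V)) : FP ι V := (l.map fun p => FP.el p.1 p.2).prod

theorem wprod_cons (p : ι × V) (l : List (ι × V)) :
    wprod (p :: l) = FP.el p.1 p.2 * wprod l := by simp [wprod]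

/-- no run of the word has sum zero -/
def NoRun (l : List (ι × V)) : Prop :=
  ∀ l₁ l₂ l₃ : List (ι × V), l = l₁ ++ l₂ ++ l₃ → l₂ ≠ [] → ∀ φ, (∀ p ∈ l₂, p.1 = φ) →
    (l₂.map Prod.snd).sum ≠ 0

theorem NoRun.tail {p : ι × V} {l : List (ι × V)} (h : NoRun (p :: l)) : NoRun l := by
  intro l₁ l₂ l₃ e hne φ hφ
  exact h (p :: l₁) l₂ l₃ (by simp [e]) hne φ hφ

theorem noRun_normal (l : List (ι × V)) (h : NoRun l) (hl : l ≠ []) :
    ∃ (φ : ι) (l₂ l₃ : List (ι × V)) (t : CoprodI.Word fun _ : ι => Multiplicative V),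
      l = l₂ ++ l₃ ∧ l₂ ≠ [] ∧ (∀ p ∈ l₂, p.1 = φ) ∧ t.fstIdx ≠ some φ ∧
      wprod l = FP.el φ (l₂.map Prod.snd).sum * t.prod := by
  classical
  induction l with
  | nil => exact absurd rfl hl
  | cons q l ih =>
    obtain ⟨ψ, v⟩ := q
    by_cases hl0 : l = []
    · subst hl0
      refine ⟨ψ, [(ψ, v)], [], CoprodI.Word.empty, by simp, by simp, by simp, ?_, ?_⟩
      · simp [CoprodI.Word.fstIdx, CoprodI.Word.empty]
      · simp [wprod]
    · obtain ⟨φ, l₂, l₃, t, e, hne, hφ, ht, hp⟩ := ih h.tail hl0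
      by_cases hψ : ψ = φ
      · subst hψ
        refine ⟨ψ, (ψ, v) :: l₂, l₃, t, by simp [e], by simp, ?_, ht, ?_⟩
        · intro p hp'
          rcases List.mem_cons.1 hp' with rfl | hp'
          · rfl
          · exact hφ p hp'
        · rw [wprod_cons, hp, ← mul_assoc, ← FP.el_add]
          simp
      · have hs : (l₂.map Prod.snd).sum ≠ 0 := h.tail [] l₂ l₃ (by simpa using e) hne φ hφ
        have hs' : (Multiplicative.ofAdd (l₂.map Prod.snd).sum : Multiplicative V) ≠ 1 := by
          intro h0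
          exact hs (ofAdd_eq_one.1 h0)
        refine ⟨ψ, [(ψ, v)], l, CoprodI.Word.cons (Multiplicative.ofAdd (l₂.map Prod.snd).sum) t
          ht hs', by simp, by simp, by simp, ?_, ?_⟩
        · rw [CoprodI.Word.fstIdx_cons]
          intro h0
          exact hψ (Option.some_injective _ h0).symm
        · rw [wprod_cons, hp, CoprodI.Word.prod_cons]
          simp [FP.el]

/-- **Free product lemma.** -/
theorem exists_run (l : List (ι × V)) (hl : l ≠ []) (h : wprod l = 1) :
    ∃ (l₁ l₂ l₃ : List (ι × V)) (φ : ι), l = l₁ ++ l₂ ++ l₃ ∧ l₂ ≠ [] ∧ (∀ p ∈ l₂, p.1 = φ) ∧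
      (l₂.map Prod.snd).sum = 0 := by
  classical
  by_contra hcon
  have hN : NoRun l := by
    intro l₁ l₂ l₃ e hne φ hφ h0
    exact hcon ⟨l₁, l₂, l₃, φ, e, hne, hφ, h0⟩
  obtain ⟨φ, l₂, l₃, t, e, hne, hφ, ht, hp⟩ := noRun_normal l hN hl
  have hs : (l₂.map Prod.snd).sum ≠ 0 := hN [] l₂ l₃ (by simpa using e) hne φ hφ
  have hs' : (Multiplicative.ofAdd (l₂.map Prod.snd).sum : Multiplicative V) ≠ 1 := by
    intro h0
    exact hs (ofAdd_eq_one.1 h0)
  have h1 : (CoprodI.Word.cons (M := fun _ : ι => Multiplicative V)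
      (Multiplicative.ofAdd (l₂.map Prod.snd).sum) t ht hs').prod =
      (CoprodI.Word.empty : CoprodI.Word fun _ : ι => Multiplicative V).prod := by
    rw [CoprodI.Word.prod_cons, CoprodI.Word.prod_empty, ← h, hp]
    rfl
  have h2 := (CoprodI.Word.equiv (M := fun _ : ι => Multiplicative V)).symm.injective
    (a₁ := CoprodI.Word.cons (M := fun _ : ι => Multiplicative V)
      (Multiplicative.ofAdd (l₂.map Prod.snd).sum) t ht hs') (a₂ := CoprodI.Word.empty) h1
  have h3 := congrArg CoprodI.Word.toList h2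
  simp [CoprodI.Word.cons, CoprodI.Word.empty] at h3

end Pool.Agent.Lib.MP_d9a4ca_co
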