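import Mathlib
import Pool.Agent.Lib.MP_d9a4ca_co.Dev
import Pool.Agent.Lib.MP_d9a4ca_co.Word

/-!
The displacement homomorphisms attached to a pair of orthogonal directions.
-/

set_option autoImplicit false

open Topology Filter Set Metric Submodule
open scoped RealInnerProductSpace

namespace Pool.Agent.Lib.MP_d9a4ca_co

theorem CBox.Ed.parallel {B : CBox} {p z : E4} (hp : B.Ed p) (hz : B.Ed z) (h : ⟪p, z⟫ ≠ 0) :
    ∃ t : ℝ, p = t • z := by
  obtain ⟨m, a, rfl⟩ := hp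
  obtain ⟨n, b, rfl⟩ := hz
  by_cases hmn : m = n
  · subst hmn
    have hb : b ≠ 0 := by rintro rfl; simp at h
    refine ⟨a / b, ?_⟩
    rw [smul_smul, div_mul_cancel₀ _ hb]
  · exfalso
    apply h
    rw [inner_smul_left, inner_smul_right, B.orth m n hmn]; simp

namespace Config

variable {ι : Type*} (C : Config ι)

open Classical in
/-- displacement along the direction `p` -/
noncomputable def dispL (p : E4) : C.Disp (Multiplicative ℝ) where
  W i z := Multiplicative.ofAdd (if (C.B i).Ed p then ⟪p, z⟫ else 0)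
  add i z z' := by
    by_cases h : (C.B i).Ed p
    · simp only [h, if_true, inner_add_right, ofAdd_add]
    · simp [h]
  compat i j z hi hj := by
    have key : ∀ i j, (C.B i).Ed z → (C.B j).Ed z → (C.B i).Ed p → ¬ (C.B j).Ed p →
        ⟪p, z⟫ = 0 := by
      intro i j hi hj h1 h2
      by_contra hne
      obtain ⟨t, rfl⟩ := CBox.Ed.parallel h1 hi hne
      exact h2 (CBox.Ed.smul _ hj t)
    by_cases h1 : (C.B i).Ed p <;> by_cases h2 : (C.B j).Ed p
    · simp [h1, h2]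
    · simp [h1, h2, key i j hi hj h1 h2]
    · simp [h1, h2, key j i hj hi h2 h1]
    · simp [h1, h2]

end Config

/-- orthogonal to both directions -/
def Perp (p₁ p₂ z : E4) : Prop := ⟪p₁, z⟫ = 0 ∧ ⟪p₂, z⟫ = 0

/-- the frame class of a vector of the orthogonal plane -/
def Fr (p₁ p₂ d : E4) : Set E4 := {e | Perp p₁ p₂ e ∧ (⟪d, e⟫ = 0 ∨ ∃ t : ℝ, e = t • d)}

theorem plane_decomp {p₁ p₂ : E4} (h₁ : p₁ ≠ 0) (h₂ : p₂ ≠ 0) (h₁₂ : ⟪p₁, p₂⟫ = 0) {d d' : E4}
    (hd : Perp p₁ p₂ d) (hd' : Perp p₁ p₂ d') (h0 : d ≠ 0) (h0' : d' ≠ 0) (hdd : ⟪d, d'⟫ = 0)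
    {e : E4} (he : Perp p₁ p₂ e) :
    e = (⟪d, e⟫ / ‖d‖ ^ 2) • d + (⟪d', e⟫ / ‖d'‖ ^ 2) • d' := by
  have hn : ‖d‖ ^ 2 ≠ 0 := by simpa using h0
  have hn' : ‖d'‖ ^ 2 ≠ 0 := by simpa using h0'
  set w : Fin 4 → E4 := ![p₁, p₂, d, d'] with hw
  have hli : LinearIndependent ℝ w := by
    apply linearIndependent_of_ne_zero_of_inner_eq_zero
    · intro i
      fin_cases i <;> simp [hw, h₁, h₂, h0, h0']
    · intro i j hij
      have a1 := hd.1; have a2 := hd.2; have a3 := hd'.1; have a4 := hd'.2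
      have b1 := real_inner_comm p₁ d; have b2 := real_inner_comm p₂ d
      have b3 := real_inner_comm p₁ d'; have b4 := real_inner_comm p₂ d'
      have b5 := real_inner_comm p₁ p₂; have b6 := real_inner_comm d d'
      fin_cases i <;> fin_cases j <;> simp_all
  have hspan : span ℝ (range w) = ⊤ := hli.span_eq_top_of_card_eq_finrank' (by simp)
  set e' := e - ((⟪d, e⟫ / ‖d‖ ^ 2) • d + (⟪d', e⟫ / ‖d'‖ ^ 2) • d') with he'
  have horth : ∀ i, ⟪w i, e'⟫ = 0 := by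
    have hdd' : ⟪d', d⟫ = 0 := by rw [real_inner_comm]; exact hdd
    intro i
    fin_cases i
    · simp [hw, he', inner_sub_right, inner_add_right, inner_smul_right, he.1, hd.1, hd'.1]
    · simp [hw, he', inner_sub_right, inner_add_right, inner_smul_right, he.2, hd.2, hd'.2]
    · simp only [hw, he', inner_sub_right, inner_add_right, inner_smul_right]
      simp only [Fin.reduceFinMk, Matrix.cons_val, hdd, real_inner_self_eq_norm_sq]
      field_simp
      ring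
    · simp only [hw, he', inner_sub_right, inner_add_right, inner_smul_right]
      simp only [Fin.reduceFinMk, Matrix.cons_val, hdd', real_inner_self_eq_norm_sq]
      field_simp
      ring
  have hall : ∀ z ∈ span ℝ (range w), ⟪z, e'⟫ = 0 := by
    intro z hz
    induction hz using span_induction with
    | mem x hx => obtain ⟨i, rfl⟩ := hx; exact horth i
    | zero => simp
    | add x y _ _ hx hy => rw [inner_add_left, hx, hy, add_zero]
    | smul a x _ hx => rw [inner_smul_left, hx, mul_zero]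
  have h0 : ⟪e', e'⟫ = 0 := hall e' (by rw [hspan]; trivial)
  rw [inner_self_eq_zero] at h0
  rw [he', sub_eq_zero] at h0
  exact h0

theorem Fr_eq_of_orth {p₁ p₂ : E4} (h₁ : p₁ ≠ 0) (h₂ : p₂ ≠ 0) (h₁₂ : ⟪p₁, p₂⟫ = 0) {d d' : E4}
    (hd : Perp p₁ p₂ d) (hd' : Perp p₁ p₂ d') (h0 : d ≠ 0) (h0' : d' ≠ 0) (hdd : ⟪d, d'⟫ = 0) :
    Fr p₁ p₂ d ⊆ Fr p₁ p₂ d' := by
  rintro e ⟨he, h | ⟨t, rfl⟩⟩
  · refine ⟨he, Or.inr ⟨⟪d', e⟫ / ‖d'‖ ^ 2, ?_⟩⟩
    have := plane_decomp h₁ h₂ h₁₂ hd hd' h0 h0' hdd he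
    rw [h, zero_div, zero_smul, zero_add] at this
    exact this
  · refine ⟨he, Or.inl ?_⟩
    rw [inner_smul_right, real_inner_comm, hdd, mul_zero]

theorem Fr_smul {p₁ p₂ d : E4} {t : ℝ} (ht : t ≠ 0) : Fr p₁ p₂ (t • d) = Fr p₁ p₂ d := by
  ext e
  simp only [Fr, mem_ofPred_eq, inner_smul_left]
  constructor
  · rintro ⟨he, h | ⟨s, rfl⟩⟩
    · exact ⟨he, Or.inl (by simpa [ht] using h)⟩
    · exact ⟨he, Or.inr ⟨s * t, by rw [smul_smul]⟩⟩
  · rintro ⟨he, h | ⟨s, rfl⟩⟩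
    · exact ⟨he, Or.inl (by simp [h])⟩
    · exact ⟨he, Or.inr ⟨s / t, by rw [smul_smul, div_mul_cancel₀ _ ht]⟩⟩

theorem Perp.smul {p₁ p₂ z : E4} (h : Perp p₁ p₂ z) (t : ℝ) : Perp p₁ p₂ (t • z) := by
  refine ⟨?_, ?_⟩
  · rw [inner_smul_right, h.1, mul_zero]
  · rw [inner_smul_right, h.2, mul_zero]

theorem Perp.of_smul {p₁ p₂ z : E4} {t : ℝ} (ht : t ≠ 0) (h : Perp p₁ p₂ (t • z)) :
    Perp p₁ p₂ z := by
  have := h.smul t⁻¹
  rwa [smul_smul, inv_mul_cancel₀ ht, one_smul] at this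

namespace CBox

variable (B : CBox) (p₁ p₂ : E4)

/-- the frame class of a box -/
def frame : Set E4 := {e | ∃ m, Perp p₁ p₂ (B.v m) ∧ e ∈ Fr p₁ p₂ (B.v m)}

theorem frame_eq {p₁ p₂ : E4} (h₁ : p₁ ≠ 0) (h₂ : p₂ ≠ 0) (h₁₂ : ⟪p₁, p₂⟫ = 0) {m : Fin 3}
    (hm : Perp p₁ p₂ (B.v m)) : B.frame p₁ p₂ = Fr p₁ p₂ (B.v m) := by
  apply Set.Subset.antisymm
  · rintro e ⟨n, hn, he⟩
    by_cases hmn : n = m
    · subst hmn; exact he
    · exact Fr_eq_of_orth h₁ h₂ h₁₂ hn hm (B.ne n) (B.ne m) (B.orth n m hmn) he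
  · intro e he
    exact ⟨m, hm, he⟩

open Classical in
/-- the part of a displacement in the orthogonal plane -/
noncomputable def om (z : E4) : E4 :=
  ∑ m, (if Perp p₁ p₂ (B.v m) then B.co m z else 0) • B.v m

theorem om_add (z z' : E4) : B.om p₁ p₂ (z + z') = B.om p₁ p₂ z + B.om p₁ p₂ z' := by
  classical
  rw [om, om, om, ← Finset.sum_add_distrib]
  refine Finset.sum_congr rfl fun m _ => ?_
  by_cases h : Perp p₁ p₂ (B.v m)
  · simp only [h, if_true, map_add, add_smul]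
  · simp [h]

open Classical in
theorem om_smul_v (m : Fin 3) (t : ℝ) :
    B.om p₁ p₂ (t • B.v m) = if Perp p₁ p₂ (B.v m) then t • B.v m else 0 := by
  rw [om, Finset.sum_eq_single m]
  · rw [map_smul, B.co_self]
    by_cases h : Perp p₁ p₂ (B.v m) <;> simp [h]
  · intro n _ hn
    rw [map_smul, B.co_ne hn]
    simp
  · intro h; exact absurd (Finset.mem_univ m) h

end CBox

namespace Config

variable {ι : Type*} (C : Config ι)

/-- displacement in the free product of the planes -/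
noncomputable def dispG {p₁ p₂ : E4} (h₁ : p₁ ≠ 0) (h₂ : p₂ ≠ 0) (h₁₂ : ⟪p₁, p₂⟫ = 0) :
    C.Disp (FP (Set E4) E4) where
  W i z := FP.el ((C.B i).frame p₁ p₂) ((C.B i).om p₁ p₂ z)
  add i z z' := by rw [CBox.om_add, FP.el_add]
  compat i j z hi hj := by
    classical
    obtain ⟨m, a, ha⟩ := hi
    obtain ⟨n, b, hb⟩ := hj
    by_cases hz : z = 0
    · have h0 : ∀ B : CBox, B.om p₁ p₂ 0 = 0 := by
        intro B
        have := B.om_smul_v p₁ p₂ 0 0
        simpa using this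
      rw [hz, h0, h0, FP.el_zero, FP.el_zero]
    have ha0 : a ≠ 0 := by rintro rfl; simp at ha; exact hz ha
    have hb0 : b ≠ 0 := by rintro rfl; simp at hb; exact hz hb
    have e1 : (C.B i).om p₁ p₂ z = if Perp p₁ p₂ ((C.B i).v m) then z else 0 := by
      conv_lhs => rw [ha]
      rw [CBox.om_smul_v, ← ha]
    have e2 : (C.B j).om p₁ p₂ z = if Perp p₁ p₂ ((C.B j).v n) then z else 0 := by
      conv_lhs => rw [hb]
      rw [CBox.om_smul_v, ← hb]
    by_cases hP : Perp p₁ p₂ z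
    · have hPm : Perp p₁ p₂ ((C.B i).v m) := Perp.of_smul ha0 (ha ▸ hP)
      have hPn : Perp p₁ p₂ ((C.B j).v n) := Perp.of_smul hb0 (hb ▸ hP)
      have f1 : Fr p₁ p₂ ((C.B i).v m) = Fr p₁ p₂ z := by rw [ha, Fr_smul ha0]
      have f2 : Fr p₁ p₂ ((C.B j).v n) = Fr p₁ p₂ z := by rw [hb, Fr_smul hb0]
      rw [e1, e2, if_pos hPm, if_pos hPn, (C.B i).frame_eq h₁ h₂ h₁₂ hPm,
        (C.B j).frame_eq h₁ h₂ h₁₂ hPn, f1, f2]
    · have hPm : ¬ Perp p₁ p₂ ((C.B i).v m) := fun h => hP (ha ▸ h.smul a)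
      have hPn : ¬ Perp p₁ p₂ ((C.B j).v n) := fun h => hP (hb ▸ h.smul b)
      rw [e1, e2, if_neg hPm, if_neg hPn, FP.el_zero, FP.el_zero]

end Config

end Pool.Agent.Lib.MP_d9a4ca_co
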