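import Mathlib
import Pool.Agent.Lib.MP_d9a4ca_co.Disp

/-!
Level curves of two developing coordinates.
-/

set_option autoImplicit false

open Topology Filter Set Metric Submodule
open scoped RealInnerProductSpace

namespace Pool.Agent.Lib.MP_d9a4ca_co

/-- a developing coordinate along the direction `p` with a generic value -/
structure Coord {ι : Type*} (C : Config ι) (p : E4) where
  f : E4 → ℝ
  ed : ∀ i, (C.B i).Ed p → ∀ x ∈ (C.B i).carrier, ∀ y ∈ (C.B i).carrier, f y = f x + ⟪p, y - x⟫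
  ned : ∀ i, ¬ (C.B i).Ed p → ∀ x ∈ (C.B i).carrier, ∀ y ∈ (C.B i).carrier, f y = f x
  t : ℝ
  ht : ∀ i, ∀ x ∈ (C.B i).carrier, (∀ k, |(C.B i).tc k x| = 1) → f x ≠ t

namespace Coord

variable {ι : Type*} {C : Config ι} {p : E4} (c : Coord C p)

theorem ed_of_level {i : ι} {x : E4} (hx : x ∈ (C.B i).carrier) (h : c.f x = c.t) :
    (C.B i).Ed p := by
  by_contra hcon
  have hy : (C.B i).pt (fun _ => 1) ∈ (C.B i).carrier :=
    (C.B i).mem_carrier_iff.2 ⟨_, fun _ => by simp, rfl⟩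
  apply c.ht i _ hy (fun k => by rw [CBox.tc_pt]; simp)
  rw [c.ned i hcon x hx _ hy, h]

theorem lt_of_level {i : ι} {x : E4} (hx : x ∈ (C.B i).carrier) (h : c.f x = c.t) {m : Fin 3}
    {a : ℝ} (hp : p = a • (C.B i).v m) : |(C.B i).tc m x| < 1 := by
  by_contra hcon
  have h1 : |(C.B i).tc m x| = 1 := le_antisymm (hx.2 m) (not_lt.1 hcon)
  set u : Fin 3 → ℝ := Function.update (fun _ => 1) m ((C.B i).tc m x) with hu
  have hu1 : ∀ k, |u k| = 1 := by
    intro k
    by_cases hk : k = m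
    · subst hk; rw [hu, Function.update_self]; exact h1
    · rw [hu, Function.update_of_ne hk]; simp
  have hy : (C.B i).pt u ∈ (C.B i).carrier :=
    (C.B i).mem_carrier_iff.2 ⟨_, fun k => (hu1 k).le, rfl⟩
  apply c.ht i _ hy (fun k => by rw [CBox.tc_pt]; exact hu1 k)
  have hE : (C.B i).Ed p := ⟨m, a, hp⟩
  rw [c.ed i hE x hx _ hy, h]
  have h2 : (C.B i).co m ((C.B i).pt u - x) = 0 := by
    have := (C.B i).tc_sub_tc m x ((C.B i).pt u)
    rw [CBox.tc_pt, hu, Function.update_self] at this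
    linarith
  rw [CBox.co_eq_zero_iff] at h2
  have h3 : ∀ q : E4, q = a • (C.B i).v m → ⟪q, (C.B i).pt u - x⟫ = 0 := by
    rintro q rfl
    rw [inner_smul_left, h2, mul_zero]
  rw [h3 p hp, add_zero]

end Coord

/-- the data of a level curve -/
structure Level {ι : Type*} (C : Config ι) where
  p₁ : E4
  p₂ : E4
  h₁ : p₁ ≠ 0
  h₂ : p₂ ≠ 0
  h₁₂ : ⟪p₁, p₂⟫ = 0
  c₁ : Coord C p₁
  c₂ : Coord C p₂
  g : E4 → FP (Set E4) E4
  hg : ∀ i, ∀ x ∈ (C.B i).carrier, ∀ y ∈ (C.B i).carrier,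
    g y = g x * FP.el ((C.B i).frame p₁ p₂) ((C.B i).om p₁ p₂ (y - x))

namespace Level

variable {ι : Type*} {C : Config ι} (L : Level C)

/-- the box is transversal to the level curves, `κ` is the index of the direction of the curve -/
def Tr (i : ι) (κ : Fin 3) : Prop := ∃ m₁ m₂, m₁ ≠ κ ∧ m₂ ≠ κ ∧ m₁ ≠ m₂ ∧
  (∃ a : ℝ, a ≠ 0 ∧ L.p₁ = a • (C.B i).v m₁) ∧ (∃ b : ℝ, b ≠ 0 ∧ L.p₂ = b • (C.B i).v m₂)

variable {L}

theorem Tr.perp {i : ι} {κ : Fin 3} (h : L.Tr i κ) : Perp L.p₁ L.p₂ ((C.B i).v κ) := by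
  obtain ⟨m₁, m₂, h1, h2, -, ⟨a, -, ha⟩, ⟨b, -, hb⟩⟩ := h
  constructor
  · rw [ha, inner_smul_left, (C.B i).orth _ _ h1, mul_zero]
  · rw [hb, inner_smul_left, (C.B i).orth _ _ h2, mul_zero]

theorem univ_eq {k m n : Fin 3} (hm : m ≠ k) (hn : n ≠ k) (hmn : m ≠ n) :
    (Finset.univ : Finset (Fin 3)) = {k, m, n} := by
  revert hm hn hmn; fin_cases k <;> fin_cases m <;> fin_cases n <;> decide

theorem Tr.line {i : ι} {κ : Fin 3} (h : L.Tr i κ) {z : E4} (hz : z ∈ (C.B i).V)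
    (z1 : ⟪L.p₁, z⟫ = 0) (z2 : ⟪L.p₂, z⟫ = 0) : z = (C.B i).co κ z • (C.B i).v κ := by
  obtain ⟨m₁, m₂, h1, h2, h12, ⟨a, ha0, ha⟩, ⟨b, hb0, hb⟩⟩ := h
  have e1 : (C.B i).co m₁ z = 0 := by
    rw [CBox.co_eq_zero_iff]
    rw [ha, inner_smul_left] at z1
    simpa [ha0] using z1
  have e2 : (C.B i).co m₂ z = 0 := by
    rw [CBox.co_eq_zero_iff]
    rw [hb, inner_smul_left] at z2
    simpa [hb0] using z2
  have h3 := (C.B i).mem_V_iff.1 hz
  conv_lhs => rw [← h3]
  rw [univ_eq h1 h2 h12, Finset.sum_insert (by simp [h1.symm, h2.symm]), Finset.sum_pair h12, e1, e2]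
  simp

theorem Tr.F_eq {i : ι} {κ : Fin 3} (h : L.Tr i κ) : (C.B i).F κ = span ℝ {L.p₁, L.p₂} := by
  obtain ⟨m₁, m₂, h1, h2, h12, ⟨a, ha0, ha⟩, ⟨b, hb0, hb⟩⟩ := h
  apply le_antisymm
  · rw [CBox.F, span_le]
    rintro _ ⟨l, hl, rfl⟩
    have hl' : l = m₁ ∨ l = m₂ := by
      by_contra hcon
      push Not at hcon
      have hl : l ≠ κ := hl
      have := univ_eq h1 h2 h12
      have hmem : l ∈ (Finset.univ : Finset (Fin 3)) := Finset.mem_univ l
      rw [this] at hmem
      simp [hl, hcon.1, hcon.2] at hmem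
    rcases hl' with rfl | rfl
    · have : (C.B i).v l = a⁻¹ • L.p₁ := by rw [ha, smul_smul, inv_mul_cancel₀ ha0, one_smul]
      rw [this]
      exact Submodule.smul_mem _ _ (subset_span (by simp))
    · have : (C.B i).v l = b⁻¹ • L.p₂ := by rw [hb, smul_smul, inv_mul_cancel₀ hb0, one_smul]
      rw [this]
      exact Submodule.smul_mem _ _ (subset_span (by simp))
  · rw [span_le]
    rintro z (rfl | rfl)
    · rw [ha]
      exact ((C.B i).F κ).smul_mem _ ((C.B i).v_mem_F h1)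
    · rw [hb]
      exact ((C.B i).F κ).smul_mem _ ((C.B i).v_mem_F h2)

theorem Tr.unique {i : ι} {κ κ' : Fin 3} (h : L.Tr i κ) (h' : L.Tr i κ') : κ = κ' :=
  (C.B i).F_inj (h.F_eq.trans h'.F_eq.symm)

variable (L)

theorem exists_tr {i : ι} {x : E4} (hx : x ∈ (C.B i).carrier) (h1 : L.c₁.f x = L.c₁.t)
    (h2 : L.c₂.f x = L.c₂.t) : ∃ κ, L.Tr i κ ∧ ∀ m, m ≠ κ → |(C.B i).tc m x| < 1 := by
  obtain ⟨m₁, a, ha⟩ := L.c₁.ed_of_level hx h1
  obtain ⟨m₂, b, hb⟩ := L.c₂.ed_of_level hx h2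
  have ha0 : a ≠ 0 := by rintro rfl; exact L.h₁ (by simp [ha])
  have hb0 : b ≠ 0 := by rintro rfl; exact L.h₂ (by simp [hb])
  have h12 : m₁ ≠ m₂ := by
    rintro rfl
    have := L.h₁₂
    rw [ha, hb, inner_smul_left, inner_smul_right, real_inner_self_eq_norm_sq] at this
    have hn := (C.B i).norm_sq_pos m₁
    simp [ha0, hb0] at this
    rw [this] at hn
    simp at hn
  obtain ⟨κ, hκ1, hκ2⟩ := exists_third m₁ m₂
  refine ⟨κ, ⟨m₁, m₂, hκ1.symm, hκ2.symm, h12, ⟨a, ha0, ha⟩, ⟨b, hb0, hb⟩⟩, ?_⟩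
  intro m hm
  have hmem : m ∈ (Finset.univ : Finset (Fin 3)) := Finset.mem_univ m
  rw [univ_eq hκ1.symm hκ2.symm h12] at hmem
  simp only [Finset.mem_insert, Finset.mem_singleton] at hmem
  rcases hmem with h | rfl | rfl
  · exact absurd h hm
  · exact L.c₁.lt_of_level hx h1 ha
  · exact L.c₂.lt_of_level hx h2 hb

/-- the level curve contains no edge point -/
theorem not_S {x : E4} (h1 : L.c₁.f x = L.c₁.t) (h2 : L.c₂.f x = L.c₂.t) : ¬ C.S x := by
  rintro ⟨i, hx, k, l, hkl, hk, hl⟩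
  obtain ⟨κ, -, hκ⟩ := L.exists_tr hx h1 h2
  have e1 : k = κ := by
    by_contra hne
    have := hκ k hne
    rw [hk] at this; exact lt_irrefl _ this
  have e2 : l = κ := by
    by_contra hne
    have := hκ l hne
    rw [hl] at this; exact lt_irrefl _ this
  exact hkl (e1.trans e2.symm)

/-- an end point of the level segment of a box -/
@[ext]
structure St where
  i : ι
  k : Fin 3
  x : E4
  hx : x ∈ (C.B i).carrier
  h1 : L.c₁.f x = L.c₁.t
  h2 : L.c₂.f x = L.c₂.t
  tr : L.Tr i k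
  en : |(C.B i).tc k x| = 1

variable {L}

theorem St.onFace (s : L.St) : (C.B s.i).OnFace s.k s.x := by
  obtain ⟨κ, hκ, hlt⟩ := L.exists_tr s.hx s.h1 s.h2
  have := s.tr.unique hκ
  subst this
  exact ⟨s.hx, s.en, hlt⟩

theorem St.eq_of (s s' : L.St) (hi : s.i = s'.i) (hx : s.x = s'.x) : s = s' := by
  obtain ⟨i, k, x, a, b, c, d, e⟩ := s
  obtain ⟨i', k', x', a', b', c', d', e'⟩ := s'
  simp only at hi hx
  subst hi hx
  have := d.unique d'
  subst this
  rfl

open Classical in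
theorem St.finite [Finite ι] : Finite L.St := by
  apply Finite.of_injective (fun s : L.St => (s.i, s.k, decide (0 < (C.B s.i).tc s.k s.x)))
  rintro s s' h
  simp only [Prod.mk.injEq, decide_eq_decide] at h
  obtain ⟨hi, hk, ht⟩ := h
  apply St.eq_of _ _ hi
  have hx' : s'.x ∈ (C.B s.i).carrier := hi ▸ s'.hx
  have hV := (C.B s.i).sub_mem_V s.hx hx'
  obtain ⟨κ, htr, -⟩ := L.exists_tr s.hx s.h1 s.h2
  have e1 : ⟪L.p₁, s'.x - s.x⟫ = 0 := by
    have := L.c₁.ed s.i (L.c₁.ed_of_level s.hx s.h1) s.x s.hx s'.x hx'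
    rw [s.h1, s'.h1] at this
    linarith
  have e2 : ⟪L.p₂, s'.x - s.x⟫ = 0 := by
    have := L.c₂.ed s.i (L.c₂.ed_of_level s.hx s.h2) s.x s.hx s'.x hx'
    rw [s.h2, s'.h2] at this
    linarith
  have h3 := s.tr.line hV e1 e2
  have h4 : (C.B s.i).co s.k (s'.x - s.x) = 0 := by
    have h5 := (C.B s.i).tc_sub_tc s.k s.x s'.x
    have h6 := s.en
    have h7 : |(C.B s.i).tc s.k s'.x| = 1 := by
      have := s'.en
      rw [← hi, ← hk] at this
      exact this
    rw [← hi, ← hk] at ht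
    rcases eq_or_eq_neg_of_abs_eq h6 with h8 | h8 <;>
      rcases eq_or_eq_neg_of_abs_eq h7 with h9 | h9 <;> rw [h8, h9] at ht h5
    · linarith
    · norm_num at ht
    · norm_num at ht
    · linarith
  rw [h4, zero_smul, sub_eq_zero] at h3
  exact h3.symm

/-- cross the box -/
noncomputable def St.cross (s : L.St) : L.St where
  i := s.i
  k := s.k
  x := s.x + (-2 * (C.B s.i).tc s.k s.x) • (C.B s.i).v s.k
  hx := by
    refine ⟨(C.B s.i).add_sub_c_mem s.hx ((C.B s.i).V.smul_mem _ ((C.B s.i).v_mem _)), fun l => ?_⟩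
    rw [CBox.tc_add, map_smul, smul_eq_mul, CBox.co_v]
    by_cases hl : l = s.k
    · subst hl
      simp only [if_true, mul_one]
      have : (C.B s.i).tc s.k s.x + -2 * (C.B s.i).tc s.k s.x = -(C.B s.i).tc s.k s.x := by ring
      rw [this, abs_neg, s.en]
    · simp only [hl, if_false, mul_zero, add_zero]
      exact s.hx.2 l
  h1 := by
    have hmem : s.x + (-2 * (C.B s.i).tc s.k s.x) • (C.B s.i).v s.k ∈ (C.B s.i).carrier := by
      refine ⟨(C.B s.i).add_sub_c_mem s.hx ((C.B s.i).V.smul_mem _ ((C.B s.i).v_mem _)),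
        fun l => ?_⟩
      rw [CBox.tc_add, map_smul, smul_eq_mul, CBox.co_v]
      by_cases hl : l = s.k
      · subst hl
        simp only [if_true, mul_one]
        have : (C.B s.i).tc s.k s.x + -2 * (C.B s.i).tc s.k s.x = -(C.B s.i).tc s.k s.x := by ring
        rw [this, abs_neg, s.en]
      · simp only [hl, if_false, mul_zero, add_zero]
        exact s.hx.2 l
    rw [L.c₁.ed s.i (L.c₁.ed_of_level s.hx s.h1) s.x s.hx _ hmem, s.h1, add_sub_cancel_left,
      inner_smul_right, s.tr.perp.1]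
    ring
  h2 := by
    have hmem : s.x + (-2 * (C.B s.i).tc s.k s.x) • (C.B s.i).v s.k ∈ (C.B s.i).carrier := by
      refine ⟨(C.B s.i).add_sub_c_mem s.hx ((C.B s.i).V.smul_mem _ ((C.B s.i).v_mem _)),
        fun l => ?_⟩
      rw [CBox.tc_add, map_smul, smul_eq_mul, CBox.co_v]
      by_cases hl : l = s.k
      · subst hl
        simp only [if_true, mul_one]
        have : (C.B s.i).tc s.k s.x + -2 * (C.B s.i).tc s.k s.x = -(C.B s.i).tc s.k s.x := by ring
        rw [this, abs_neg, s.en]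
      · simp only [hl, if_false, mul_zero, add_zero]
        exact s.hx.2 l
    rw [L.c₂.ed s.i (L.c₂.ed_of_level s.hx s.h2) s.x s.hx _ hmem, s.h2, add_sub_cancel_left,
      inner_smul_right, s.tr.perp.2]
    ring
  tr := s.tr
  en := by
    rw [CBox.tc_add, map_smul, smul_eq_mul, CBox.co_self, mul_one]
    have : (C.B s.i).tc s.k s.x + -2 * (C.B s.i).tc s.k s.x = -(C.B s.i).tc s.k s.x := by ring
    rw [this, abs_neg, s.en]

theorem St.cross_cross (s : L.St) : s.cross.cross = s := by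
  apply St.eq_of
  · rfl
  · change (s.x + (-2 * (C.B s.i).tc s.k s.x) • (C.B s.i).v s.k) +
      (-2 * (C.B s.i).tc s.k (s.x + (-2 * (C.B s.i).tc s.k s.x) • (C.B s.i).v s.k)) •
      (C.B s.i).v s.k = s.x
    rw [CBox.tc_add, map_smul, smul_eq_mul, CBox.co_self]
    module

theorem St.cross_ne (s : L.St) : s.cross ≠ s := by
  intro h
  have h1 : s.x + (-2 * (C.B s.i).tc s.k s.x) • (C.B s.i).v s.k = s.x := congrArg St.x h
  have h2 : (-2 * (C.B s.i).tc s.k s.x) • (C.B s.i).v s.k = 0 := by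
    have := congrArg (fun z => z - s.x) h1
    simpa using this
  rcases smul_eq_zero.1 h2 with h3 | h3
  · have h4 : (C.B s.i).tc s.k s.x = 0 := by linarith
    have := s.en
    rw [h4] at this
    simp at this
  · exact (C.B s.i).ne _ h3

variable [Finite ι]

theorem St.exists_flip (s : L.St) : ∃ s' : L.St, s'.i ≠ s.i ∧ s'.x = s.x ∧
    ∀ m, s.x ∈ (C.B m).carrier → m = s.i ∨ m = s'.i := by
  obtain ⟨j, l, hj, hl, hF, hst⟩ := C.exists_partner s.onFace (L.not_S s.h1 s.h2)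
  obtain ⟨κ, htr, -⟩ := L.exists_tr hl.1 s.h1 s.h2
  have : κ = l := (C.B j).F_inj (by rw [htr.F_eq, ← hF, s.tr.F_eq])
  subst this
  exact ⟨⟨j, κ, s.x, hl.1, s.h1, s.h2, htr, hl.2.1⟩, hj, rfl, hst⟩

/-- go to the other box at the end point -/
noncomputable def St.flip (s : L.St) : L.St := s.exists_flip.choose

theorem St.flip_i (s : L.St) : s.flip.i ≠ s.i := s.exists_flip.choose_spec.1

theorem St.flip_x (s : L.St) : s.flip.x = s.x := s.exists_flip.choose_spec.2.1

theorem St.flip_star (s : L.St) {m : ι} (h : s.x ∈ (C.B m).carrier) : m = s.i ∨ m = s.flip.i :=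
  s.exists_flip.choose_spec.2.2 m h

theorem St.flip_flip (s : L.St) : s.flip.flip = s := by
  apply St.eq_of
  · have h1 : s.x ∈ (C.B s.flip.flip.i).carrier := by
      have := s.flip.flip.hx
      rwa [St.flip_x, St.flip_x] at this
    rcases s.flip_star h1 with h | h
    · exact h
    · exact absurd h s.flip.flip_i
  · rw [St.flip_x, St.flip_x]

theorem St.flip_ne (s : L.St) : s.flip ≠ s := fun h => s.flip_i (congrArg St.i h)

theorem St.eq_or_flip (s s' : L.St) (h : s'.x = s.x) : s' = s ∨ s' = s.flip := by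
  have h1 : s.x ∈ (C.B s'.i).carrier := h ▸ s'.hx
  rcases s.flip_star h1 with h2 | h2
  · exact Or.inl (St.eq_of _ _ h2 h)
  · exact Or.inr (St.eq_of _ _ h2 (h.trans s.flip_x.symm))

/-- the walk -/
noncomputable def St.next (s : L.St) : L.St := s.flip.cross

theorem St.next_injective : Function.Injective (St.next : L.St → L.St) := by
  intro s s' h
  have h1 : s.flip = s'.flip := by
    rw [← s.flip.cross_cross, ← s'.flip.cross_cross]
    exact congrArg St.cross h
  rw [← s.flip_flip, ← s'.flip_flip, h1]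

theorem St.no_flip (n : ℕ) (s : L.St) : St.next^[n] s ≠ s.flip := by
  induction n using Nat.strong_induction_on generalizing s with
  | _ n ih =>
    match n, ih with
    | 0, _ => exact fun h => s.flip_ne h.symm
    | 1, _ => exact fun h => s.flip.cross_ne h
    | n + 2, ih =>
      intro h
      rw [Function.iterate_succ_apply, Function.iterate_succ_apply'] at h
      -- `cross (flip (next^[n] (next s))) = flip s`
      have h1 : St.next^[n] s.next = s.next.flip := by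
        have h2 : (St.next^[n] s.next).flip.cross = s.flip := h
        have h3 : (St.next^[n] s.next).flip = s.next := by
          rw [← (St.next^[n] s.next).flip.cross_cross, h2]
          rfl
        rw [← (St.next^[n] s.next).flip_flip, h3]
      exact ih n (by omega) s.next h1

/-- the displacement of one step -/
theorem St.step (s : L.St) : L.g s.next.x = L.g s.x *
    FP.el (Fr L.p₁ L.p₂ ((C.B s.next.i).v s.next.k)) (s.next.x - s.x) := by
  have h1 : s.x ∈ (C.B s.flip.i).carrier := by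
    have := s.flip.hx
    rwa [St.flip_x] at this
  have h2 := L.hg s.flip.i s.x h1 s.next.x s.next.hx
  rw [h2, (C.B s.flip.i).frame_eq L.h₁ L.h₂ L.h₁₂ s.flip.tr.perp]
  have h3 : s.next.x - s.x = (-2 * (C.B s.flip.i).tc s.flip.k s.flip.x) •
      (C.B s.flip.i).v s.flip.k := by
    change s.flip.x + (-2 * (C.B s.flip.i).tc s.flip.k s.flip.x) • (C.B s.flip.i).v s.flip.k - s.x
      = _
    rw [St.flip_x, add_sub_cancel_left]
  rw [h3, CBox.om_smul_v, if_pos s.flip.tr.perp]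
  rfl

end Level

end Pool.Agent.Lib.MP_d9a4ca_co
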