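import Mathlib
import Pool.Agent.Lib.MP_d9a4ca_co.Slice

/-!
The closed level curve through a crease lies in one frame.
-/

set_option autoImplicit false

open Topology Filter Set Metric Submodule
open scoped RealInnerProductSpace

namespace Pool.Agent.Lib.MP_d9a4ca_co

theorem wprod_append {ι V : Type*} [AddCommGroup V] (l l' : List (ι × V)) :
    wprod (l ++ l') = wprod l * wprod l' := by simp [wprod]

namespace Level

variable {ι : Type*} [Finite ι] {C : Config ι} {L : Level C}

/-- the letters of the word of the level curve -/
noncomputable def letter (s : L.St) (n : ℕ) : Set E4 × E4 :=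
  (Fr L.p₁ L.p₂ ((C.B (St.next^[n + 1] s).i).v (St.next^[n + 1] s).k),
    (St.next^[n + 1] s).x - (St.next^[n] s).x)

theorem wprod_letter (s : L.St) (n : ℕ) :
    wprod ((List.range n).map (letter s)) = (L.g s.x)⁻¹ * L.g (St.next^[n] s).x := by
  induction n with
  | zero => simp [wprod]
  | succ n ih =>
    rw [List.range_succ, List.map_append, wprod_append, ih]
    have h := (St.next^[n] s).step
    rw [Function.iterate_succ_apply', h]
    simp only [List.map_cons, List.map_nil, wprod, List.prod_cons, List.prod_nil, mul_one, letter,
      Function.iterate_succ_apply']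
    group

theorem sum_letter (s : L.St) (n : ℕ) :
    (((List.range n).map (letter s)).map Prod.snd).sum = (St.next^[n] s).x - s.x := by
  induction n with
  | zero => simp
  | succ n ih =>
    rw [List.range_succ, List.map_append, List.map_append, List.sum_append, ih]
    simp [letter]

/-- **The level curve through a crease lies in one frame.** -/
theorem frame_eq_of_flip (s : L.St) : Fr L.p₁ L.p₂ ((C.B s.i).v s.k) =
    Fr L.p₁ L.p₂ ((C.B s.flip.i).v s.flip.k) := by
  have hfin : Finite L.St := St.finite
  have hper : s ∈ Function.periodicPts (St.next : L.St → L.St) :=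
    St.next_injective.mem_periodicPts s
  set m := Function.minimalPeriod St.next s with hm
  have hm0 : 0 < m := Function.minimalPeriod_pos_of_mem_periodicPts hper
  have hsm : St.next^[m] s = s := Function.isPeriodicPt_minimalPeriod St.next s
  set l := (List.range m).map (letter s) with hl
  have hlen : l.length = m := by simp [hl]
  have hl0 : l ≠ [] := by
    intro h
    rw [h] at hlen
    simp at hlen
    omega
  have hw : wprod l = 1 := by
    rw [hl, wprod_letter, hsm]; simp
  obtain ⟨l₁, l₂, l₃, φ, e, hne, hφ, hsum⟩ := exists_run l hl0 hw
  have hl₂ : 0 < l₂.length := List.length_pos_iff.2 hne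
  have hle : l₁.length + l₂.length + l₃.length = m := by
    rw [← hlen, e]; simp [add_assoc]
  have htake : ∀ a, a ≤ m → l.take a = (List.range a).map (letter s) := by
    intro a ha
    rw [hl, ← List.map_take, List.take_range, min_eq_left ha]
  have h1 : l₁ = (List.range l₁.length).map (letter s) := by
    rw [← htake _ (by omega), e, List.append_assoc, List.take_left]
  have h2 : l₁ ++ l₂ = (List.range (l₁.length + l₂.length)).map (letter s) := by
    rw [← htake _ (by omega), e, ← List.length_append, List.take_left]
  set a := l₁.length with ha
  set n := l₂.length with hn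
  have h3 : (St.next^[a + n] s).x = (St.next^[a] s).x := by
    have e1 := sum_letter s (a + n)
    rw [← h2, List.map_append, List.sum_append, hsum, add_zero, h1, sum_letter] at e1
    exact (sub_left_injective e1).symm
  by_cases hnm : n < m
  · exfalso
    have h4 : St.next^[a + n] s = St.next^[n] (St.next^[a] s) := by
      rw [add_comm, Function.iterate_add_apply]
    rw [h4] at h3
    rcases St.eq_or_flip _ _ h3 with h5 | h5
    · have h6 : Function.IsPeriodicPt St.next n (St.next^[a] s) := h5
      have h7 := h6.minimalPeriod_le hl₂
      rw [Function.minimalPeriod_apply_iterate hper] at h7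
      omega
    · exact St.no_flip _ _ h5
  · have ha0 : a = 0 := by omega
    have hl₁ : l₁ = [] := List.length_eq_zero_iff.1 ha0
    have hl₃ : l₃ = [] := List.length_eq_zero_iff.1 (by omega)
    rw [hl₁, hl₃, List.nil_append, List.append_nil] at e
    have hmem : ∀ k, k < m → letter s k ∈ l₂ := by
      intro k hk
      rw [← e, hl]
      exact List.mem_map.2 ⟨k, List.mem_range.2 hk, rfl⟩
    have e0 := hφ _ (hmem 0 hm0)
    have e1 := hφ _ (hmem (m - 1) (by omega))
    have e2 : (letter s (m - 1)).1 = Fr L.p₁ L.p₂ ((C.B s.i).v s.k) := by
      simp only [letter]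
      rw [Nat.sub_add_cancel hm0, hsm]
    rw [← e2, e1, ← e0]
    rfl

end Level

end Pool.Agent.Lib.MP_d9a4ca_co
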