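import Mathlib
import Pool.Agent.Lib.MP_d9a4ca_co.Cycle

/-!
At a crease the two boxes are orthogonal or coplanar.
-/

set_option autoImplicit false

open Topology Filter Set Metric Submodule
open scoped RealInnerProductSpace

namespace Pool.Agent.Lib.MP_d9a4ca_co

namespace Config

variable {ι : Type*} [Finite ι] (C : Config ι)

/-- the vertices of the boxes -/
def Vert : Set E4 := {y | ∃ i, y ∈ (C.B i).carrier ∧ ∀ k, |(C.B i).tc k y| = 1}

theorem finite_Vert : C.Vert.Finite := by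
  have h : C.Vert ⊆ range (fun p : ι × (Fin 3 → Bool) => (C.B p.1).pt fun k => sg (p.2 k)) := by
    rintro y ⟨i, hy, h⟩
    choose b hb using fun k => exists_sg (h k)
    refine ⟨(i, b), ?_⟩
    rw [← (C.B i).pt_tc hy.1]
    change (C.B i).pt _ = _
    congr 1
    funext k
    exact (hb k).symm
  exact (Set.finite_range _).subset h

/-- the developing coordinate along a direction -/
theorem exists_coord [SimplyConnectedSpace C.M] (p : E4) : ∃ f : E4 → ℝ,
    (∀ i, (C.B i).Ed p → ∀ x ∈ (C.B i).carrier, ∀ y ∈ (C.B i).carrier,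
      f y = f x + ⟪p, y - x⟫) ∧
    (∀ i, ¬ (C.B i).Ed p → ∀ x ∈ (C.B i).carrier, ∀ y ∈ (C.B i).carrier, f y = f x) := by
  obtain ⟨dev, hdev⟩ := (C.dispL p).exists_dev
  refine ⟨fun x => (dev x).toAdd, ?_, ?_⟩
  · intro i hi x hx y hy
    have h := hdev i x hx y hy
    simp only [dispL, hi, if_true] at h
    simp only [h, toAdd_mul, toAdd_ofAdd]
  · intro i hi x hx y hy
    have h := hdev i x hx y hy
    simp only [dispL, hi, if_false, ofAdd_zero, mul_one] at h
    simp only [h]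

/-- **The crease theorem.** -/
theorem crease [SimplyConnectedSpace C.M] {i j : ι} (hij : i ≠ j) {x : E4} {k l : Fin 3}
    (hi : (C.B i).OnFace k x) (hj : (C.B j).OnFace l x) (hF : (C.B i).F k = (C.B j).F l) :
    ⟪(C.B i).v k, (C.B j).v l⟫ = 0 ∨ ∃ t : ℝ, (C.B j).v l = t • (C.B i).v k := by
  obtain ⟨m, hm, -⟩ := exists_third k k
  obtain ⟨n, hn, hnm⟩ := exists_third k m
  set p₁ := (C.B i).v m with hp₁
  set p₂ := (C.B i).v n with hp₂
  have h₁ : p₁ ≠ 0 := (C.B i).ne m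
  have h₂ : p₂ ≠ 0 := (C.B i).ne n
  have h₁₂ : ⟪p₁, p₂⟫ = 0 := (C.B i).orth m n hnm.symm
  obtain ⟨f₁, hf₁, hf₁'⟩ := C.exists_coord p₁
  obtain ⟨f₂, hf₂, hf₂'⟩ := C.exists_coord p₂
  obtain ⟨g, hg⟩ := (C.dispG h₁ h₂ h₁₂).exists_dev
  obtain ⟨δi, hδi, -, -, hci⟩ := (C.B i).exists_rad x
  obtain ⟨δj, hδj, -, -, hcj⟩ := (C.B j).exists_rad x
  have hci := hci hi.1
  have hcj := hcj hj.1
  set δ := min δi δj with hδ
  have hδ0 : 0 < δ := lt_min hδi hδj
  have hgen : ∀ (p : E4), p ≠ 0 → ∀ f : E4 → ℝ, ∃ a : ℝ, 0 < a ∧ a * ‖p‖ < δ / 2 ∧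
      f x + a * ‖p‖ ^ 2 ∉ f '' C.Vert := by
    intro p hp f
    have hn0 : 0 < ‖p‖ := norm_pos_iff.2 hp
    have hfin : {a : ℝ | f x + a * ‖p‖ ^ 2 ∈ f '' C.Vert}.Finite := by
      apply (C.finite_Vert.image f).preimage
      intro a _ b _ hab
      have hab : f x + a * ‖p‖ ^ 2 = f x + b * ‖p‖ ^ 2 := hab
      have h1 : a * ‖p‖ ^ 2 = b * ‖p‖ ^ 2 := by linarith
      exact mul_right_cancel₀ (by positivity) h1
    obtain ⟨a, ha0, ha1, ha2⟩ := exists_small (δ := δ / 2 / ‖p‖) (by positivity) hfin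
    exact ⟨a, ha0, by rwa [lt_div_iff₀ hn0] at ha1, ha2⟩
  obtain ⟨a, ha0, ha1, ha2⟩ := hgen p₁ h₁ f₁
  obtain ⟨b, hb0, hb1, hb2⟩ := hgen p₂ h₂ f₂
  set z := a • p₁ + b • p₂ with hz
  have hzF : z ∈ (C.B i).F k := ((C.B i).F k).add_mem
    (((C.B i).F k).smul_mem _ ((C.B i).v_mem_F hm)) (((C.B i).F k).smul_mem _ ((C.B i).v_mem_F hn))
  have hzn : ‖z‖ < δ := by
    calc ‖z‖ ≤ ‖a • p₁‖ + ‖b • p₂‖ := norm_add_le _ _
      _ = a * ‖p₁‖ + b * ‖p₂‖ := by
        rw [norm_smul, norm_smul, Real.norm_of_nonneg ha0.le, Real.norm_of_nonneg hb0.le]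
      _ < δ := by linarith
  have hxi : x + z ∈ (C.B i).carrier := by
    apply (hci z (hzn.trans_le (min_le_left _ _))).2
    refine ⟨(C.B i).F_le_V k hzF, fun q hq => ?_⟩
    have := hi.unique _ hq
    subst this
    rw [(C.B i).co_of_mem_F hzF]; simp
  have hxj : x + z ∈ (C.B j).carrier := by
    apply (hcj z (hzn.trans_le (min_le_right _ _))).2
    refine ⟨(C.B j).F_le_V l (hF ▸ hzF), fun q hq => ?_⟩
    have := hj.unique _ hq
    subst this
    rw [(C.B j).co_of_mem_F (hF ▸ hzF)]; simp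
  have hv1 : f₁ (x + z) = f₁ x + a * ‖p₁‖ ^ 2 := by
    rw [hf₁ i ((C.B i).ed_v m) x hi.1 _ hxi, add_sub_cancel_left, hz, inner_add_right,
      inner_smul_right, inner_smul_right, h₁₂, real_inner_self_eq_norm_sq]
    ring
  have hv2 : f₂ (x + z) = f₂ x + b * ‖p₂‖ ^ 2 := by
    rw [hf₂ i ((C.B i).ed_v n) x hi.1 _ hxi, add_sub_cancel_left, hz, inner_add_right,
      inner_smul_right, inner_smul_right, real_inner_comm, h₁₂, real_inner_self_eq_norm_sq]
    ring
  let L : Level C :=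
    { p₁ := p₁
      p₂ := p₂
      h₁ := h₁
      h₂ := h₂
      h₁₂ := h₁₂
      c₁ :=
        { f := f₁
          ed := hf₁
          ned := hf₁'
          t := f₁ (x + z)
          ht := fun i' y hy hv h => ha2 (by
            rw [← hv1, ← h]
            exact ⟨y, ⟨i', hy, hv⟩, rfl⟩) }
      c₂ :=
        { f := f₂
          ed := hf₂
          ned := hf₂'
          t := f₂ (x + z)
          ht := fun i' y hy hv h => hb2 (by
            rw [← hv2, ← h]
            exact ⟨y, ⟨i', hy, hv⟩, rfl⟩) }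
      g := g
      hg := hg }
  let s : L.St :=
    { i := i
      k := k
      x := x + z
      hx := hxi
      h1 := rfl
      h2 := rfl
      tr := ⟨m, n, hm, hn, hnm.symm, ⟨1, one_ne_zero, by simp [L, hp₁]⟩,
        ⟨1, one_ne_zero, by simp [L, hp₂]⟩⟩
      en := by
        rw [(C.B i).tc_add, (C.B i).co_of_mem_F hzF, add_zero, hi.2.1] }
  have hfi : j = s.flip.i := by
    rcases s.flip_star (m := j) hxj with h | h
    · exact absurd h.symm hij
    · exact h
  have hfr := Level.frame_eq_of_flip s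
  have hkl : s.flip.k = l := by
    have h1 := s.flip.tr.F_eq
    have h2 := s.tr.F_eq
    have h3 : (C.B s.flip.i).F s.flip.k = (C.B i).F k := h1.trans h2.symm
    rw [← hfi, hF] at h3
    exact (C.B j).F_inj h3
  have htr := s.flip.tr.perp
  rw [hkl, ← hfi] at hfr htr
  have hmem : (C.B j).v l ∈ Fr L.p₁ L.p₂ ((C.B j).v l) := ⟨htr, Or.inr ⟨1, by simp⟩⟩
  rw [← hfr] at hmem
  exact hmem.2

end Config

end Pool.Agent.Lib.MP_d9a4ca_co
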