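import Mathlib
import Pool.Agent.Lib.MP_d9a4ca_co.Crease

/-!
Adjacent boxes of a simply connected closed 3-manifold in `ℝ⁴` lie in orthogonal 3-flats or in a
common 3-flat.
-/

set_option autoImplicit false

open Topology Filter Set Metric Submodule MeasureTheory
open scoped RealInnerProductSpace

namespace Pool.Agent.Lib.MP_d9a4ca_co

namespace CBox

variable (B : CBox)

theorem dimH_onEdge : dimH {x | B.OnEdge x} ≤ 1 := by
  have h : {x | B.OnEdge x} ⊆ ⋃ p : Fin 3 × Fin 3 × Fin 3 × Bool × Bool,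
      range (fun s : ℝ => B.c + (Config.sg p.2.2.2.1 • B.v p.1 + Config.sg p.2.2.2.2 • B.v p.2.1 +
        s • B.v p.2.2.1)) := by
    rintro x ⟨hx, k, l, hkl, hk, hl⟩
    obtain ⟨m, hm, hm'⟩ := exists_third k l
    obtain ⟨b, hb⟩ := Config.exists_sg hk
    obtain ⟨b', hb'⟩ := Config.exists_sg hl
    refine mem_iUnion.2 ⟨(k, l, m, b, b'), B.tc m x, ?_⟩
    have h1 := B.pt_tc hx.1
    have h2 : (Finset.univ : Finset (Fin 3)) = {k, l, m} := by
      revert hkl hm hm'; fin_cases k <;> fin_cases l <;> fin_cases m <;> decide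
    rw [pt, h2, Finset.sum_insert (by simp [hkl, hm.symm]), Finset.sum_pair hm'.symm, hb, hb'] at h1
    simp only [add_assoc]
    exact h1
  refine (dimH_mono h).trans ?_
  rw [dimH_iUnion]
  refine iSup_le fun p => ?_
  have hc : ContDiff ℝ 1 (fun s : ℝ => B.c + (Config.sg p.2.2.2.1 • B.v p.1 +
      Config.sg p.2.2.2.2 • B.v p.2.1 + s • B.v p.2.2.1)) := by fun_prop
  simpa using hc.dimH_range_le

theorem vectorSpan_carrier : vectorSpan ℝ B.carrier = B.V := by
  apply le_antisymm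
  · rw [vectorSpan, span_le]
    rintro _ ⟨x, hx, y, hy, rfl⟩
    exact B.sub_mem_V hy hx
  · rw [V, span_le]
    rintro _ ⟨k, rfl⟩
    have h1 : B.pt (Pi.single k 1) ∈ B.carrier := B.mem_carrier_iff.2 ⟨_, fun l => by
      by_cases hl : l = k
      · subst hl; simp
      · simp [hl], rfl⟩
    have h2 : B.pt 0 ∈ B.carrier := B.mem_carrier_iff.2 ⟨_, fun l => by simp, rfl⟩
    have h3 : B.v k = B.pt (Pi.single k 1) -ᵥ B.pt 0 := by
      simp [pt, Pi.single_apply]
    rw [h3]
    exact vsub_mem_vectorSpan ℝ h1 h2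

theorem direction_affineSpan_carrier : (affineSpan ℝ B.carrier).direction = B.V := by
  rw [direction_affineSpan, vectorSpan_carrier]

end CBox

theorem affineSpan_eq_of_V_eq {B B' : CBox} (h : B.V = B'.V) {x : E4} (hx : x ∈ B.carrier)
    (hx' : x ∈ B'.carrier) : affineSpan ℝ B.carrier = affineSpan ℝ B'.carrier := by
  apply AffineSubspace.ext_of_direction_eq
  · rw [B.direction_affineSpan_carrier, B'.direction_affineSpan_carrier, h]
  · exact ⟨x, subset_affineSpan ℝ _ hx, subset_affineSpan ℝ _ hx'⟩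

namespace Config

variable {ι : Type*} [Finite ι] (C : Config ι)

theorem measure_S : μH[2] {x | C.S x} = 0 := by
  have h : dimH {x | C.S x} ≤ 1 := by
    have : {x | C.S x} = ⋃ i, {x | (C.B i).OnEdge x} := by
      ext x
      simp [S]
    rw [this, dimH_iUnion]
    exact iSup_le fun i => (C.B i).dimH_onEdge
  have h2 : dimH {x | C.S x} < ((2 : NNReal) : ENNReal) := lt_of_le_of_lt h (by norm_num)
  have := hausdorffMeasure_of_dimH_lt h2
  exact_mod_cast this

/-- **Main theorem.** -/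
theorem main [SimplyConnectedSpace C.M] (i j : ι)
    (hadj : 0 < μH[2] ((C.B i).carrier ∩ (C.B j).carrier)) :
    (∀ m n : E4, (∀ u ∈ (C.B i).V, ⟪m, u⟫ = 0) → (∀ u ∈ (C.B j).V, ⟪n, u⟫ = 0) → ⟪m, n⟫ = 0) ∨
      affineSpan ℝ (C.B i).carrier = affineSpan ℝ (C.B j).carrier := by
  by_cases hij : i = j
  · subst hij; exact Or.inr rfl
  obtain ⟨x, ⟨hxi, hxj⟩, hS⟩ : ∃ x ∈ (C.B i).carrier ∩ (C.B j).carrier, ¬ C.S x := by
    by_contra hcon
    push Not at hcon
    have : μH[2] ((C.B i).carrier ∩ (C.B j).carrier) = 0 :=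
      measure_mono_null (fun x hx => hcon x hx) C.measure_S
    rw [this] at hadj
    exact lt_irrefl _ hadj
  obtain ⟨k, hk⟩ := C.OnFace_of_two hij hS hxi hxj
  obtain ⟨j', l, hj', hl, hF, hst⟩ := C.exists_partner hk hS
  have hjj : j = j' := by
    rcases hst j hxj with h | h
    · exact absurd h.symm hij
    · exact h
  subst hjj
  obtain ⟨a, ha, -⟩ := exists_third k k
  obtain ⟨b, hb, hba⟩ := exists_third k a
  have hpi : Perp ((C.B i).v a) ((C.B i).v b) ((C.B i).v k) :=
    ⟨(C.B i).orth _ _ ha, (C.B i).orth _ _ hb⟩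
  have hpj : Perp ((C.B i).v a) ((C.B i).v b) ((C.B j).v l) := by
    have h1 := (C.B j).co_of_mem_F (hF ▸ (C.B i).v_mem_F ha)
    have h2 := (C.B j).co_of_mem_F (hF ▸ (C.B i).v_mem_F hb)
    rw [CBox.co_eq_zero_iff, real_inner_comm] at h1 h2
    exact ⟨h1, h2⟩
  rcases C.crease hij hk hl hF with h | ⟨t, ht⟩
  · left
    intro m n hm hn
    have hmp : Perp ((C.B i).v a) ((C.B i).v b) m := by
      constructor
      · rw [real_inner_comm]; exact hm _ ((C.B i).v_mem a)
      · rw [real_inner_comm]; exact hm _ ((C.B i).v_mem b)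
    have hnp : Perp ((C.B i).v a) ((C.B i).v b) n := by
      constructor
      · rw [real_inner_comm]; exact hn _ ((C.B j).F_le_V l (hF ▸ (C.B i).v_mem_F ha))
      · rw [real_inner_comm]; exact hn _ ((C.B j).F_le_V l (hF ▸ (C.B i).v_mem_F hb))
    have e1 := plane_decomp ((C.B i).ne a) ((C.B i).ne b) ((C.B i).orth a b hba.symm) hpi hpj
      ((C.B i).ne k) ((C.B j).ne l) h hmp
    have e2 := plane_decomp ((C.B i).ne a) ((C.B i).ne b) ((C.B i).orth a b hba.symm) hpi hpj
      ((C.B i).ne k) ((C.B j).ne l) h hnp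
    have h1 : ⟪(C.B i).v k, m⟫ = 0 := by rw [real_inner_comm]; exact hm _ ((C.B i).v_mem k)
    have h2 : ⟪(C.B j).v l, n⟫ = 0 := by rw [real_inner_comm]; exact hn _ ((C.B j).v_mem l)
    rw [h1, zero_div, zero_smul, zero_add] at e1
    rw [h2, zero_div, zero_smul, add_zero] at e2
    have h' : ⟪(C.B j).v l, (C.B i).v k⟫ = 0 := by rw [real_inner_comm]; exact h
    rw [e1, e2, inner_smul_left, inner_smul_right, h', mul_zero, mul_zero]
  · right
    apply affineSpan_eq_of_V_eq _ hxi hxj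
    have ht0 : t ≠ 0 := by
      rintro rfl
      exact (C.B j).ne l (by simp [ht])
    apply le_antisymm
    · rw [CBox.V, span_le]
      rintro _ ⟨q, rfl⟩
      by_cases hq : q = k
      · subst hq
        have : (C.B i).v q = t⁻¹ • (C.B j).v l := by
          rw [ht, smul_smul, inv_mul_cancel₀ ht0, one_smul]
        rw [this]
        exact (C.B j).V.smul_mem _ ((C.B j).v_mem l)
      · exact (C.B j).F_le_V l (hF ▸ (C.B i).v_mem_F hq)
    · rw [CBox.V, span_le]
      rintro _ ⟨q, rfl⟩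
      by_cases hq : q = l
      · subst hq
        rw [ht]
        exact (C.B i).V.smul_mem _ ((C.B i).v_mem k)
      · exact (C.B i).F_le_V k (hF ▸ (C.B j).v_mem_F hq)

end Config

end Pool.Agent.Lib.MP_d9a4ca_co
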